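import Mathlib
import Pool.Agent.Lib.MP_5deabe_nt_DF.Defs3

/-!
# The wild prime: modular elements and height pairings for the fields in `ℚ(ζ_{m p^{n+1}})⁺`

`E` has good ordinary reduction at `p`.
-/

namespace MTate

open MonoidAlgebra

/-- the character `φ` modulo `M` is induced by a character modulo `k` -/
def Induced {M : ℕ} (k : ℕ) (φ : Gm M →* ℂˣ) : Prop :=
  ∃ (h : k ∣ M) (ψ : Gm k →* ℂˣ), φ = ψ.comp (ZMod.unitsMap h)

/-- the factor of the interpolation property at `p` for a character `ψ` whose conductor has the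
`p`-part `p ^ j`, with `z = ψ(p)`: it is the product of `1 - ψ(p)/α` and `1 - ψ(p)⁻¹/α` if `j = 0`
and `α ^ (-j)` otherwise -/
noncomputable def multP (p j : ℕ) (α z : ℂ) : ℂ :=
  if j = 0 then (1 - α⁻¹ * z) * (1 - α⁻¹ * z⁻¹) else (α ^ j)⁻¹

namespace MTData

variable (D : MTData) (p : ℕ) [Fact p.Prime]

/-- `E` is ordinary at `p` and `a ∈ ℤ_pˣ` is the unit root of `X² - a_p X + p`,
`a_p = p + 1 - #E(𝔽_p)` -/
def UnitRoot (a : ℤ_[p]) : Prop :=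
  IsUnit a ∧ a ^ 2 - ((p : ℤ_[p]) + 1 - nsCard D.W p) * a + p = 0

/-- Let `M = m p^e`, `p` prime to `m`, and let `f : Gal(ℚ(ζ_M)⁺/ℚ) → G` define a real abelian
field `F ⊆ ℚ(ζ_M)⁺`.  `θ ∈ ℤ_p[G]` is **the element of the (`S`-depleted) `p`-adic `L`-function**
of Mazur, Tate and Teitelbaum for `F`: for all characters `χ` of `G`, induced by `ψ` modulo
`m p^j` with minimal `j`, one has `χ(θ) = α^{-j} τ(ψ) L_S(E, ψ⁻¹, 1)/Ω⁺` if `j > 0` and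
`χ(θ) = (1 - ψ(p)/α) (1 - ψ(p)⁻¹/α) τ(ψ) L_S(E, ψ⁻¹, 1)/Ω⁺` if `j = 0`, `S = {ℓ : ℓ ∣ m p^j N}`.

(Here `θ = u + α⁻¹ v` with `u, v ∈ ℚ[G]`: for `α` one takes the two complex roots of
`X² - a_p X + p` in the values `χ(u) + α⁻¹ χ(v)`, and the unit root `a ∈ ℤ_p` in `θ`.) -/
def IsThetaW (a : ℤ_[p]) (m M : ℕ) {G : Type*} [CommGroup G] (f : Gp M →* G)
    (θ : MonoidAlgebra ℤ_[p] G) : Prop :=
  ∃ u v : MonoidAlgebra ℚ G,
    (∀ α : ℂ, α ^ 2 - ((p : ℂ) + 1 - nsCard D.W p) * α + p = 0 → ∀ χ : G →* ℂˣ,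
      ∀ (j k : ℕ), k = m * p ^ j → ∀ (h : k ∣ M) (ψ : Gm k →* ℂˣ),
        infl f χ = ψ.comp (ZMod.unitsMap h) → (∀ i < j, ¬ Induced (m * p ^ i) (infl f χ)) →
        ∃ L : ℂ → ℂ, D.IsL k ψ L ∧
          (u.coeff.sum fun g b => (b : ℂ) * (χ g : ℂ)) +
            α⁻¹ * (v.coeff.sum fun g b => (b : ℂ) * (χ g : ℂ)) =
              multP p j α (dval k ψ p) * (tau k ψ * L 1 / omegaPlus D.W)) ∧
    ∀ g, ((θ.coeff g : ℤ_[p]) : ℚ_[p]) =
      ((u.coeff g : ℚ) : ℚ_[p]) + (a : ℚ_[p])⁻¹ * ((v.coeff g : ℚ) : ℚ_[p])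

/-- the height pairing `⟨P, Q⟩_M ∈ Gal(ℚ(ζ_M)⁺/ℚ)`, `M = m p^e`: besides the components
`comp l P Q` modulo `l` at the primes `l ∣ m` there is a component `w P Q ∈ ℤ_pˣ` at `p`, the
canonical one for ordinary `p` with the sign normalisation of `comp` (explicitly, up to sign,
`w P Q = u(P) u(Q) / u(P + Q)` for `P`, `Q` in the formal group at `p`, where `u(R) = σ_p(R)/d` for
`R = (a/d², b/d³)`, `σ_p` the canonical `p`-adic sigma function; this is not used) -/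
noncomputable def pairW (w : EQ D.W → EQ D.W → ℤ_[p]ˣ) (M : ℕ) (P Q : EQ D.W) : Gp M :=
  toGp M (Classical.epsilon fun b : Gm M =>
    (∀ (l : ℕ) (h : l ∣ M), l.Prime → l ≠ p → ZMod.unitsMap h b = D.comp l P Q) ∧
      ∀ (j : ℕ) (h : p ^ j ∣ M),
        ZMod.unitsMap h b = Units.map (PadicInt.toZModPow (p := p) j).toMonoidHom (w P Q))

/-- an element of `I^r ⊆ ℤ_p[G]` which represents `R_F = det ⟨x_i, x_j⟩_F ∈ I^r/I^{r+1}`, computed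
with an `n` prime to `p` such that `n x_j ∈ E_S(ℚ)` for all `j`, for the field `F ⊆ ℚ(ζ_M)⁺` given
by `f` -/
noncomputable def regW (w : EQ D.W → EQ D.W → ℤ_[p]ˣ) (n M : ℕ) {G : Type*} [CommGroup G]
    (f : Gp M →* G) : MonoidAlgebra ℤ_[p] G :=
  Matrix.det (Matrix.of fun i j =>
    algebraMap ℤ_[p] (MonoidAlgebra ℤ_[p] G) (Ring.inverse (n : ℤ_[p])) *
      (of ℤ_[p] G (f (D.pairW p w M (D.x i) (n • D.x j))) - 1))

/-- the properties of the height pairing which are used, for `M = m p^{n+1}`, `m` admissible; the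
points of `E_S(ℚ)` reduce to `0` at the primes dividing `m p` and to nonsingular points at the
primes dividing `N` -/
structure PairingW (w : EQ D.W → EQ D.W → ℤ_[p]ˣ) : Prop where
  ext : ∀ m, D.Adm p m → ∃ n : ℕ, p.Coprime n ∧ ∀ j, D.InES (m * p) (n • D.x j)
  right : ∀ m e, D.Adm p m → ∀ (P Q : EQ D.W) (k : ℕ), D.InES (m * p) Q →
    D.pairW p w (m * p ^ e) P (k • Q) = D.pairW p w (m * p ^ e) P Q ^ k
  left : ∀ m e, D.Adm p m → ∀ (P Q : EQ D.W) (k : ℕ), D.InES (m * p) Q →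
    D.pairW p w (m * p ^ e) (k • P) Q = D.pairW p w (m * p ^ e) P Q ^ k
  symm : ∀ m e, D.Adm p m → ∀ P Q : EQ D.W, D.InES (m * p) P → D.InES (m * p) Q →
    D.pairW p w (m * p ^ e) P Q = D.pairW p w (m * p ^ e) Q P

/-- the height pairing of the field `F ⊆ ℚ(ζ_{m p^e})⁺` given by `f` is degenerate -/
def DegenerateW (w : EQ D.W → EQ D.W → ℤ_[p]ˣ) (m M : ℕ) {G : Type*} [CommGroup G]
    (f : Gp M →* G) : Prop :=
  ∃ n : ℕ, p.Coprime n ∧ (∀ j, D.InES (m * p) (n • D.x j)) ∧ ∃ b : Fin D.r → ℤ,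
    (∃ i, ¬ (p : ℤ) ∣ b i) ∧ ∀ j, f (∏ i, D.pairW p w M (D.x i) (n • D.x j) ^ b i) = 1

/-- **(V) for the fields in `ℚ(ζ_{t p^{n+1}})⁺`**: the element of the `p`-adic `L`-function lies in
`I^{r+1}` for all cyclic fields of degree `p ^ j`, `j ≤ n`, in `ℚ(ζ_{t p^{n+1}})⁺` with degenerate
height pairing -/
def VanishW (a : ℤ_[p]) (w : EQ D.W → EQ D.W → ℤ_[p]ˣ) (n t : ℕ) : Prop :=
  ∀ j ≤ n, ∀ f : Gp (t * p ^ (n + 1)) →* Cpn p j, Function.Surjective f →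
    D.DegenerateW p w t (t * p ^ (n + 1)) f →
      ∃ θ, D.IsThetaW p a t (t * p ^ (n + 1)) f θ ∧ θ ∈ augI ℤ_[p] (Cpn p j) ^ (D.r + 1)

/-- the elements of the `p`-adic `L`-function are integral -/
def IntegralW (a : ℤ_[p]) : Prop :=
  ∀ m, D.Adm p m → ∀ n, ∃ θ, D.IsThetaW p a m (m * p ^ (n + 1)) (MonoidHom.id _) θ

/-- **the leading term formula with the constant `c`** for the field `F ⊆ ℚ(ζ_M)⁺` given by `f`,
`M = m p^e`: `θ ∈ I^r` and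
`θ ≡ (1 - α⁻¹)² (-1)^{ν(m)} c ∏_{ℓ ∣ m} (#E(𝔽_ℓ)/ℓ) R_F` in `I^r/I^{r+1}` -/
def Q1W (a : ℤ_[p]) (w : EQ D.W → EQ D.W → ℤ_[p]ˣ) (c : ℤ_[p]) (m M : ℕ) {G : Type*}
    [CommGroup G] (f : Gp M →* G) : Prop :=
  ∃ θ : MonoidAlgebra ℤ_[p] G, D.IsThetaW p a m M f θ ∧ θ ∈ augI ℤ_[p] G ^ D.r ∧
    ∀ n : ℕ, p.Coprime n → (∀ j, D.InES (m * p) (n • D.x j)) →
      θ - algebraMap ℤ_[p] _ ((1 - Ring.inverse a) ^ 2 * ((-1) ^ m.primeFactors.card *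
        (c * ∏ l ∈ m.primeFactors, (nsCard D.W l : ℤ_[p]) * Ring.inverse (l : ℤ_[p])))) *
          D.regW p w n M f ∈ augI ℤ_[p] G ^ (D.r + 1)

/-- the `p`-adic height pairing is nondegenerate: the regulator of `ℚ(ζ_{p^{n+1}})⁺` is not zero in
`I^r/I^{r+1}` for some `n` -/
def NondegW (w : EQ D.W → EQ D.W → ℤ_[p]ˣ) : Prop :=
  ∃ n n' : ℕ, p.Coprime n' ∧ (∀ j, D.InES p (n' • D.x j)) ∧
    D.regW p w n' (p ^ (n + 1)) (MonoidHom.id _) ∉ augI ℤ_[p] (Gp (p ^ (n + 1))) ^ (D.r + 1)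

end MTData

end MTate
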