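import Mathlib
import Pool.Agent.Lib.MP_5deabe_nt_CY.Defs
import Pool.Agent.Lib.MP_5deabe_nt.Gauss

/-!
# Characters modulo `M` which are induced by characters modulo a divisor
-/

namespace MTate

/-- a character which is trivial on the kernel of the reduction is induced -/
theorem exists_desc {k K : ℕ} (hK : K ≠ 0) (h : k ∣ K) (ψ : Gm K →* ℂˣ)
    (hker : ∀ x, ZMod.unitsMap h x = 1 → ψ x = 1) :
    ∃ ψ₁ : Gm k →* ℂˣ, ψ = ψ₁.comp (ZMod.unitsMap h) := by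
  have : NeZero K := ⟨hK⟩
  have hs : Function.Surjective (ZMod.unitsMap h) := ZMod.unitsMap_surjective h
  refine ⟨(ZMod.unitsMap h).liftOfSurjective hs ⟨ψ, fun x hx => hker x hx⟩, ?_⟩
  exact (MonoidHom.liftOfRightInverse_comp _ _ (Function.rightInverse_surjInv hs)
    ⟨ψ, fun x hx => hker x hx⟩).symm

/-- lifting units with the Chinese remainder theorem -/
theorem exists_lift_unit {M k l K k' : ℕ} (hK : K = M * l) (hk' : k' = k * l)
    (hc : M.Coprime l) (hkM : k ∣ M) (hk'K : k' ∣ K) (hkk' : k ∣ k') (hMK : M ∣ K) {x : Gm k'}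
    (hx : ZMod.unitsMap hkk' x = 1) :
    ∃ y : Gm K, ZMod.unitsMap hMK y = 1 ∧ ZMod.unitsMap hk'K y = x := by
  have hl : l ∣ k' := ⟨k, by rw [hk', mul_comm]⟩
  have hlK : l ∣ K := hl.trans hk'K
  obtain ⟨y, hy⟩ := (crt_bijective hK hc).2 (1, ZMod.unitsMap hl x)
  have hy1 : ZMod.unitsMap hMK y = 1 := congrArg Prod.fst hy
  have hy2 : ZMod.unitsMap hlK y = ZMod.unitsMap hl x := congrArg Prod.snd hy
  refine ⟨y, hy1, ?_⟩
  apply (crt_bijective hk' (hc.coprime_dvd_left hkM)).1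
  refine Prod.ext ?_ ?_
  · show ZMod.unitsMap hkk' (ZMod.unitsMap hk'K y) = ZMod.unitsMap hkk' x
    rw [hx]
    have h1 : ZMod.unitsMap hkk' (ZMod.unitsMap hk'K y) =
        ZMod.unitsMap hkM (ZMod.unitsMap hMK y) := by
      have e1 := DFunLike.congr_fun (ZMod.unitsMap_comp hkk' hk'K) y
      have e2 := DFunLike.congr_fun (ZMod.unitsMap_comp hkM hMK) y
      exact e1.trans e2.symm
    rw [h1, hy1, map_one]
  · show ZMod.unitsMap hl (ZMod.unitsMap hk'K y) = ZMod.unitsMap hl x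
    rw [← hy2]
    exact DFunLike.congr_fun (ZMod.unitsMap_comp hl hk'K) y

/-- a character modulo `M` which is induced by a character modulo `k l` after inflation to `M l` is
already induced by a character modulo `k` -/
theorem exists_down {M k l K k' : ℕ} (hK0 : K ≠ 0) (hK : K = M * l) (hk' : k' = k * l)
    (hc : M.Coprime l) (hkM : k ∣ M) (hk'K : k' ∣ K) (hkk' : k ∣ k') (hMK : M ∣ K)
    {φ : Gm M →* ℂˣ} {ψ : Gm k' →* ℂˣ}
    (h : φ.comp (ZMod.unitsMap hMK) = ψ.comp (ZMod.unitsMap hk'K)) :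
    ∃ ψ₁ : Gm k →* ℂˣ, φ = ψ₁.comp (ZMod.unitsMap hkM) ∧
      ψ = ψ₁.comp (ZMod.unitsMap hkk') := by
  have hk'0 : k' ≠ 0 := fun h0 => hK0 (by rw [h0] at hk'K; exact zero_dvd_iff.mp hk'K)
  obtain ⟨ψ₁, hψ₁⟩ := exists_desc hk'0 hkk' ψ fun x hx => by
    obtain ⟨y, hy1, hy2⟩ := exists_lift_unit hK hk' hc hkM hk'K hkk' hMK hx
    have h1 := DFunLike.congr_fun h y
    rw [MonoidHom.comp_apply, MonoidHom.comp_apply, hy1, hy2, map_one] at h1
    exact h1.symm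
  refine ⟨ψ₁, ?_, hψ₁⟩
  have : NeZero K := ⟨hK0⟩
  ext x
  obtain ⟨y, rfl⟩ := ZMod.unitsMap_surjective hMK x
  have h1 := DFunLike.congr_fun h y
  rw [MonoidHom.comp_apply, MonoidHom.comp_apply, hψ₁, MonoidHom.comp_apply] at h1
  rw [h1, MonoidHom.comp_apply]
  congr 2
  have e1 := DFunLike.congr_fun (ZMod.unitsMap_comp hkk' hk'K) y
  have e2 := DFunLike.congr_fun (ZMod.unitsMap_comp hkM hMK) y
  exact e1.trans e2.symm

/-- the minimal level -/
theorem exists_min {M m q e : ℕ} (hM : M = m * q ^ e) (φ : Gm M →* ℂˣ) :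
    ∃ (j k : ℕ), k = m * q ^ j ∧ ∃ (h : k ∣ M) (ψ : Gm k →* ℂˣ),
      φ = ψ.comp (ZMod.unitsMap h) ∧ ∀ i < j, ¬ Induced (m * q ^ i) φ := by
  classical
  have h0 : ∃ j, Induced (m * q ^ j) φ := by
    refine ⟨e, ?_⟩
    rw [← hM]
    refine ⟨dvd_rfl, φ, ?_⟩
    rw [ZMod.unitsMap_self, MonoidHom.comp_id]
  obtain ⟨h, ψ, hψ⟩ := Nat.find_spec h0
  exact ⟨Nat.find h0, _, rfl, h, ψ, hψ, fun i hi => Nat.find_min h0 hi⟩

end MTate
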