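import Mathlib
import Pool.Agent.Lib.MP_5deabe_nt_CY.Ind
import Pool.Agent.Lib.MP_5deabe_nt.Func

/-!
# The elements of the `p`-adic `L`-function: functoriality, uniqueness, restriction
-/

namespace MTate

open MonoidAlgebra

variable {p : ℕ} [hp : Fact p.Prime] {D : MTData}

theorem matchW_iff {G : Type*} [CommGroup G] (a : ℤ_[p]) (θ : MonoidAlgebra ℤ_[p] G)
    (u v : MonoidAlgebra ℚ G) :
    (∀ g, ((θ.coeff g : ℤ_[p]) : ℚ_[p]) =
      ((u.coeff g : ℚ) : ℚ_[p]) + (a : ℚ_[p])⁻¹ * ((v.coeff g : ℚ) : ℚ_[p])) ↔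
      toQp θ = ofQ (p := p) u + (a : ℚ_[p])⁻¹ • ofQ (p := p) v := by
  constructor
  · intro h
    apply MonoidAlgebra.ext
    ext g
    simp only [toQp, ofQ, coeff_mapRingHom, eq_ratCast, coeff_add, coeff_smul, Finsupp.add_apply,
      Finsupp.smul_apply, smul_eq_mul]
    exact h g
  · intro h g
    have h1 := congrArg (fun y => y.coeff g) h
    simp only [toQp, ofQ, coeff_mapRingHom, eq_ratCast, coeff_add, coeff_smul, Finsupp.add_apply,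
      Finsupp.smul_apply, smul_eq_mul] at h1
    exact h1

/-- the trace of Frobenius is not `± 2 √p` -/
theorem disc_ne (hp2 : p ≠ 2) (a : ℤ) : ((a : ℤ) : ℂ) ^ 2 ≠ 4 * p := by
  intro h
  have h1 : a ^ 2 = 4 * p := by exact_mod_cast h
  have hpz : Prime (p : ℤ) := Nat.prime_iff_prime_int.mp hp.out
  have h2 : (p : ℤ) ∣ a := hpz.dvd_of_dvd_pow ⟨4, by rw [h1]; ring⟩
  obtain ⟨b, rfl⟩ := h2
  have h3 : (p : ℤ) * b ^ 2 = 4 := by
    have h4 : (p : ℤ) * (p * b ^ 2) = p * 4 := by linear_combination h1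
    exact mul_left_cancel₀ hpz.ne_zero h4
  have h5 : (p : ℤ) ∣ 4 := ⟨b ^ 2, h3.symm⟩
  have h6 : p ∣ 2 ^ 2 := by
    have : p ∣ 4 := by exact_mod_cast h5
    simpa using this
  have h7 := hp.out.dvd_of_dvd_pow h6
  exact hp2 ((Nat.prime_dvd_prime_iff_eq hp.out Nat.prime_two).mp h7)

theorem exists_roots (hp2 : p ≠ 2) (c : ℕ) : ∃ α β : ℂ, α ≠ β ∧ α ≠ 0 ∧ β ≠ 0 ∧
    α ^ 2 - ((p : ℂ) + 1 - c) * α + p = 0 ∧ β ^ 2 - ((p : ℂ) + 1 - c) * β + p = 0 := by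
  have hp0 : (p : ℂ) ≠ 0 := Nat.cast_ne_zero.mpr hp.out.ne_zero
  obtain ⟨s, hs⟩ := IsAlgClosed.exists_pow_nat_eq (((p : ℂ) + 1 - c) ^ 2 - 4 * p)
    (n := 2) (by norm_num)
  have hs0 : s ≠ 0 := by
    rintro rfl
    apply disc_ne (p := p) hp2 ((p : ℤ) + 1 - c)
    push_cast
    linear_combination -hs
  have e1 : ((((p : ℂ) + 1 - c) + s) / 2) ^ 2 - ((p : ℂ) + 1 - c) *
      ((((p : ℂ) + 1 - c) + s) / 2) + p = 0 := by linear_combination (1 / 4) * hs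
  have e2 : ((((p : ℂ) + 1 - c) - s) / 2) ^ 2 - ((p : ℂ) + 1 - c) *
      ((((p : ℂ) + 1 - c) - s) / 2) + p = 0 := by linear_combination (1 / 4) * hs
  refine ⟨_, _, ?_, ?_, ?_, e1, e2⟩
  · intro h
    apply hs0
    linear_combination h
  · intro h
    rw [h] at e1
    apply hp0
    linear_combination e1
  · intro h
    rw [h] at e2
    apply hp0
    linear_combination e2

theorem two_roots {α β x y x' y' : ℂ} (h : α ≠ β) (h1 : x + α⁻¹ * y = x' + α⁻¹ * y')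
    (h2 : x + β⁻¹ * y = x' + β⁻¹ * y') : x = x' ∧ y = y' := by
  have h3 : (α⁻¹ - β⁻¹) * (y - y') = 0 := by linear_combination h1 - h2
  have h4 : α⁻¹ - β⁻¹ ≠ 0 := by
    intro h5
    exact h (inv_injective (sub_eq_zero.mp h5))
  have h5 : y = y' := sub_eq_zero.mp ((mul_eq_zero.mp h3).resolve_left h4)
  refine ⟨?_, h5⟩
  rw [h5] at h1
  linear_combination h1

namespace MTData

variable {a : ℤ_[p]} {m M : ℕ}

theorem IsThetaW.push' {G G' : Type*} [CommGroup G] [CommGroup G'] {f : Gp M →* G}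
    {θ : MonoidAlgebra ℤ_[p] G} (h : D.IsThetaW p a m M f θ) (g : G →* G') :
    D.IsThetaW p a m M (g.comp f) (push g θ) := by
  obtain ⟨u, v, h1, h2⟩ := h
  refine ⟨push g u, push g v, fun α hα χ j k hk hkM ψ hψ hmin => ?_, ?_⟩
  · obtain ⟨L, hL, h3⟩ := h1 α hα (χ.comp g) j k hk hkM ψ hψ hmin
    refine ⟨L, hL, ?_⟩
    rw [ev_eq, ev_eq, ev_push, ev_push, ← ev_eq, ← ev_eq, h3]
  · rw [matchW_iff] at h2 ⊢
    rw [push_toQp, push_ofQ, push_ofQ, h2, map_add, map_smul]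

theorem IsThetaW.unique (hp2 : p ≠ 2) {e : ℕ} (hM : M = m * p ^ e) {G : Type*} [CommGroup G]
    [Finite G] {f : Gp M →* G} {θ θ' : MonoidAlgebra ℤ_[p] G} (h : D.IsThetaW p a m M f θ)
    (h' : D.IsThetaW p a m M f θ') : θ = θ' := by
  obtain ⟨u, v, h1, h2⟩ := h
  obtain ⟨u', v', h3, h4⟩ := h'
  rw [matchW_iff] at h2 h4
  obtain ⟨α, β, hne, -, -, hα, hβ⟩ := exists_roots (p := p) hp2 (nsCard D.W p)
  have key : ∀ χ : G →* ℂˣ, ev χ u = ev χ u' ∧ ev χ v = ev χ v' := by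
    intro χ
    obtain ⟨j, k, hk, hkM, ψ, hψ, hmin⟩ := exists_min hM (infl f χ)
    have h5 : ∀ γ : ℂ, γ ^ 2 - ((p : ℂ) + 1 - nsCard D.W p) * γ + p = 0 →
        ev χ u + γ⁻¹ * ev χ v = ev χ u' + γ⁻¹ * ev χ v' := by
      intro γ hγ
      obtain ⟨L, hL, e1⟩ := h1 γ hγ χ j k hk hkM ψ hψ hmin
      obtain ⟨L', hL', e2⟩ := h3 γ hγ χ j k hk hkM ψ hψ hmin
      rw [← ev_eq, ← ev_eq, ← ev_eq, ← ev_eq, e1, e2, hL.unique hL']
    exact two_roots hne (h5 α hα) (h5 β hβ)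
  have e1 : u = u' := ev_unique fun χ => (key χ).1
  have e2 : v = v' := ev_unique fun χ => (key χ).2
  apply toQp_injective
  rw [h2, h4, e1, e2]

/-- the product of `1 - σ/α` and `1 - σ⁻¹/α` -/
noncomputable def EP (a : ℤ_[p]) {G : Type*} [CommGroup G] (σ : G) : MonoidAlgebra ℤ_[p] G :=
  (1 - algebraMap ℤ_[p] _ (Ring.inverse a) * of ℤ_[p] G σ) *
    (1 - algebraMap ℤ_[p] _ (Ring.inverse a) * of ℤ_[p] G σ⁻¹)

theorem EP_sub_mem (a : ℤ_[p]) {G : Type*} [CommGroup G] (σ : G) :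
    EP a σ - algebraMap ℤ_[p] _ ((1 - Ring.inverse a) ^ 2) ∈ augI ℤ_[p] G := by
  rw [mem_augI, map_sub, AlgHom.commutes]
  unfold EP
  rw [map_mul, map_sub, map_sub, map_mul, map_mul, AlgHom.commutes, eps_of, eps_of, map_one]
  simp only [Algebra.algebraMap_self, RingHom.id_apply]
  ring

/-- restriction to a tame field -/
theorem IsThetaW.tame (hp2 : p ≠ 2) (ha : D.UnitRoot p a) (hpm : p.Coprime m) (hmM : m ∣ M)
    {G : Type*} [CommGroup G] [Finite G] {f : Gp m →* G} {θ θ' : MonoidAlgebra ℤ_[p] G}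
    (h : D.IsThetaW p a m M (f.comp (res hmM)) θ) (h' : D.IsTheta p m f θ') :
    θ = EP a (frob f hpm) * θ' := by
  obtain ⟨u, v, h1, h2⟩ := h
  obtain ⟨θ₀, h3, h4⟩ := h'
  rw [matchW_iff] at h2
  rw [match_iff] at h4
  obtain ⟨α, β, hne, hα0, hβ0, hα, hβ⟩ := exists_roots (p := p) hp2 (nsCard D.W p)
  have hp0 : (p : ℂ) ≠ 0 := Nat.cast_ne_zero.mpr hp.out.ne_zero
  set σ : G := frob f hpm with hσ
  set A : ℚ := ((p : ℚ) + 1 - nsCard D.W p) / p with hA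
  set V : MonoidAlgebra ℚ G := algebraMap ℚ _ A - of ℚ G σ - of ℚ G σ⁻¹ with hV
  have hof : ∀ (χ : G →* ℂˣ) (g : G), ev χ (of ℚ G g) = (χ g : ℂ) := by
    intro χ g
    simp [ev]
  have hevV : ∀ χ : G →* ℂˣ, ev χ V = (A : ℂ) - (χ σ : ℂ) - (χ σ : ℂ)⁻¹ := by
    intro χ
    rw [hV, map_sub, map_sub, AlgHom.commutes, hof, hof, map_inv, Units.val_inv_eq_inv_val,
      eq_ratCast]
  have key : ∀ χ : G →* ℂˣ, ev χ u = ev χ (algebraMap ℚ _ (1 - (p : ℚ)⁻¹) * θ₀) ∧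
      ev χ v = ev χ (V * θ₀) := by
    intro χ
    obtain ⟨L', hL', e2⟩ := h3 χ
    have h5 : ∀ γ : ℂ, γ ≠ 0 → γ ^ 2 - ((p : ℂ) + 1 - nsCard D.W p) * γ + p = 0 →
        ev χ u + γ⁻¹ * ev χ v = ev χ (algebraMap ℚ _ (1 - (p : ℚ)⁻¹) * θ₀) +
          γ⁻¹ * ev χ (V * θ₀) := by
      intro γ hγ0 hγ
      obtain ⟨L, hL, e1⟩ := h1 γ hγ χ 0 m (by rw [pow_zero, mul_one]) hmM (infl f χ) rfl
        (fun i hi => absurd hi (Nat.not_lt_zero i))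
      rw [hL.unique hL', ← e2, ev_eq, ev_eq, ev_eq] at e1
      rw [e1]
      have hz : dval m (infl f χ) p = (χ σ : ℂ) := by
        unfold dval
        rw [dif_pos hpm]
        rfl
      have hz0 : (χ σ : ℂ) ≠ 0 := (χ σ).ne_zero
      rw [hz, map_mul, map_mul, AlgHom.commutes, hevV, multP, if_pos rfl, eq_ratCast, hA]
      push_cast
      set z : ℂ := (χ σ : ℂ)
      have e3 : γ⁻¹ ^ 2 = (((p : ℂ) + 1 - nsCard D.W p) * γ⁻¹ - 1) / p := by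
        field_simp
        linear_combination hγ
      have e4 : z * z⁻¹ = 1 := mul_inv_cancel₀ hz0
      have e5 : (1 - γ⁻¹ * z) * (1 - γ⁻¹ * z⁻¹) =
          1 - (p : ℂ)⁻¹ + γ⁻¹ * (((p : ℂ) + 1 - nsCard D.W p) / p - z - z⁻¹) := by
        have e6 : (1 - γ⁻¹ * z) * (1 - γ⁻¹ * z⁻¹) = 1 - γ⁻¹ * z - γ⁻¹ * z⁻¹ + γ⁻¹ ^ 2 := by
          linear_combination γ⁻¹ ^ 2 * e4
        rw [e6, e3]
        field_simp
        ring
      rw [e5]
      ring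
    exact two_roots hne (h5 α hα0 hα) (h5 β hβ0 hβ)
  have e1 : u = algebraMap ℚ _ (1 - (p : ℚ)⁻¹) * θ₀ := ev_unique fun χ => (key χ).1
  have e2 : v = V * θ₀ := ev_unique fun χ => (key χ).2
  apply toQp_injective
  rw [h2, e1, e2, map_mul, map_mul, map_mul, h4]
  -- the identity between the factors
  have ha1 : (Ring.inverse a : ℤ_[p]) * a = 1 := Ring.inverse_mul_cancel _ ha.1
  have ha2 : ((Ring.inverse a : ℤ_[p]) : ℚ_[p]) * (a : ℚ_[p]) = 1 := by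
    rw [← PadicInt.coe_mul, ha1, PadicInt.coe_one]
  have ha3 : ((Ring.inverse a : ℤ_[p]) : ℚ_[p]) = (a : ℚ_[p])⁻¹ := eq_inv_of_mul_eq_one_left ha2
  have ha0 : (a : ℚ_[p]) ≠ 0 := right_ne_zero_of_mul_eq_one ha2
  have hpq : (p : ℚ_[p]) ≠ 0 := Nat.cast_ne_zero.mpr hp.out.ne_zero
  have ha4 : (a : ℚ_[p]) ^ 2 - ((p : ℚ_[p]) + 1 - nsCard D.W p) * a + p = 0 := by
    have := congrArg (fun y : ℤ_[p] => (y : ℚ_[p])) ha.2
    push_cast at this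
    exact this
  have h5 : toQp (EP a σ) = ofQ (p := p) (algebraMap ℚ _ (1 - (p : ℚ)⁻¹)) +
      (a : ℚ_[p])⁻¹ • ofQ (p := p) V := by
    have hτ : of ℚ_[p] G σ * of ℚ_[p] G σ⁻¹ = 1 := by
      rw [← map_mul, mul_inv_cancel, map_one]
    have e3 : toQp (EP a σ) = (1 - algebraMap ℚ_[p] _ (a : ℚ_[p])⁻¹ * of ℚ_[p] G σ) *
        (1 - algebraMap ℚ_[p] _ (a : ℚ_[p])⁻¹ * of ℚ_[p] G σ⁻¹) := by
      unfold EP
      simp [toQp, ha3]
    have e4 : ofQ (p := p) (algebraMap ℚ (MonoidAlgebra ℚ G) (1 - (p : ℚ)⁻¹)) =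
        algebraMap ℚ_[p] _ (1 - (p : ℚ_[p])⁻¹) := by
      simp [ofQ]
    have e5 : ofQ (p := p) V = algebraMap ℚ_[p] _ (((p : ℚ_[p]) + 1 - nsCard D.W p) / p) -
        of ℚ_[p] G σ - of ℚ_[p] G σ⁻¹ := by
      rw [hV, hA]
      simp [ofQ]
    rw [e3, e4, e5, Algebra.smul_def]
    have e6 : ((a : ℚ_[p])⁻¹) ^ 2 = (((p : ℚ_[p]) + 1 - nsCard D.W p) * (a : ℚ_[p])⁻¹ - 1) / p := by
      field_simp
      linear_combination ha4
    have e7 : algebraMap ℚ_[p] (MonoidAlgebra ℚ_[p] G) ((a : ℚ_[p])⁻¹) ^ 2 =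
        algebraMap ℚ_[p] _ ((((p : ℚ_[p]) + 1 - nsCard D.W p) / p)) *
          algebraMap ℚ_[p] _ ((a : ℚ_[p])⁻¹) - algebraMap ℚ_[p] _ ((p : ℚ_[p])⁻¹) := by
      rw [← map_pow, e6, ← map_mul, ← map_sub]
      congr 1
      field_simp
    rw [map_sub, map_one]
    linear_combination algebraMap ℚ_[p] (MonoidAlgebra ℚ_[p] G) ((a : ℚ_[p])⁻¹) ^ 2 * hτ + e7
  rw [h5, add_mul, smul_mul_assoc]

end MTData

end MTate
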