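import Mathlib
import Pool.Agent.Lib.MP_5deabe_nt_CY.ThetaW

/-!
# The elements of the `p`-adic `L`-function for `S` and for `S ∪ {ℓ}`
-/

namespace MTate

open MonoidAlgebra

variable {p : ℕ} [hp : Fact p.Prime] {D : MTData}

theorem unitsMap_coprime {M k l : ℕ} (h : k ∣ M) (hM : l.Coprime M) (hk : l.Coprime k) :
    ZMod.unitsMap h (ZMod.unitOfCoprime l hM) = ZMod.unitOfCoprime l hk := by
  apply Units.ext
  simp [ZMod.unitsMap_def]

namespace MTData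

theorem IsL.up' {K k l : ℕ} (hK : K = k * l) (hl : l.Prime) (hlk : ¬ l ∣ k) (hlN : ¬ l ∣ D.N)
    {χ : Gm k →* ℂˣ} {F : ℂ → ℂ} (hF : D.IsL k χ F) :
    D.IsL K (χ.comp (ZMod.unitsMap (m := K) (n := k) ⟨l, hK⟩))
      (fun s => F s * eulerPoly D.W l (dval k χ l)⁻¹ s) := by
  classical
  set χ' : Gm K →* ℂˣ := χ.comp (ZMod.unitsMap (m := K) (n := k) ⟨l, hK⟩) with hχ'
  have hdval : ∀ n : ℕ, n.Coprime K → dval K χ' n = dval k χ n := by
    intro n hn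
    have hn' : n.Coprime k := hn.coprime_dvd_right ⟨l, hK⟩
    unfold dval
    rw [dif_pos hn, dif_pos hn', hχ', MonoidHom.comp_apply, unitsMap_coprime _ hn hn']
  obtain ⟨h0, C, hC⟩ := hF
  obtain ⟨C', hC'⟩ := eulerPoly_ne_zero D.W hl.one_lt (dval k χ l)⁻¹
  refine ⟨h0.mul (eulerPoly_differentiable D.W hl.one_lt _), max C C', fun s hs => ?_⟩
  have hE := hC' s (lt_of_le_of_lt (le_max_right _ _) hs)
  have h1 := hC s (lt_of_le_of_lt (le_max_left _ _) hs)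
  have h3 : HasProd (fun q : Nat.Primes => if q = ⟨l, hl⟩ then
      eulerPoly D.W l (dval k χ l)⁻¹ s else (1 : ℂ))
      (eulerPoly D.W l (dval k χ l)⁻¹ s) := hasProd_ite_eq _ _
  have h4 := h1.mul h3
  convert! h4 using 1
  funext q
  by_cases hq : q = ⟨l, hl⟩
  · have hql : (q : ℕ) = l := by rw [hq]
    rw [if_pos hq, if_pos, if_neg, hql, inv_mul_cancel₀ hE]
    · rw [hql, hl.dvd_mul]
      rintro (h6 | h6)
      · exact hlk h6
      · exact hlN h6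
    · rw [hql, hK]
      exact ⟨k * D.N, by ring⟩
  · rw [if_neg hq, mul_one]
    have hql : (q : ℕ) ≠ l := fun h => hq (Subtype.ext h)
    by_cases h6 : (q : ℕ) ∣ k * D.N
    · rw [if_pos h6, if_pos]
      rw [hK]
      exact h6.trans ⟨l, by ring⟩
    · have h7 : ¬ (q : ℕ) ∣ K * D.N := by
        intro h8
        rw [hK] at h8
        have h9 : k * l * D.N = k * D.N * l := by ring
        rw [h9, q.2.dvd_mul] at h8
        rcases h8 with h8 | h8
        · exact h6 h8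
        · exact hql ((Nat.prime_dvd_prime_iff_eq q.2 hl).mp h8)
      rw [if_neg h6, if_neg h7, hdval]
      rw [Nat.Prime.coprime_iff_not_dvd q.2]
      intro h8
      exact h7 (h8.trans ⟨D.N, rfl⟩)

theorem IsThetaW.up {a : ℤ_[p]} {d m l M₁ M : ℕ} (hm : m = d * l) (hM : M = M₁ * l)
    (hM0 : M ≠ 0) (hl : l.Prime) (hlN : ¬ l ∣ D.N) (hpl : p.Coprime l) (hpd : p.Coprime d)
    (hc : l.Coprime M₁) {G : Type*} [CommGroup G] {f : Gp M₁ →* G} {θ : MonoidAlgebra ℤ_[p] G}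
    (h : D.IsThetaW p a d M₁ f θ) :
    D.IsThetaW p a m M (f.comp (res (m := M) (d := M₁) ⟨l, hM⟩))
      (PZ D.W l (frob f hc) * θ) := by
  have hM₁0 : M₁ ≠ 0 := by
    rintro rfl
    rw [zero_mul] at hM
    exact hM0 hM
  have hMM : M₁ ∣ M := ⟨l, hM⟩
  obtain ⟨u, v, h1, h2⟩ := h
  refine ⟨PQ D.W l (frob f hc) * u, PQ D.W l (frob f hc) * v,
    fun α hα χ j k hk hkM ψ hψ hmin => ?_, ?_⟩
  · obtain ⟨k₁, hk₁⟩ : ∃ k₁, k₁ = d * p ^ j := ⟨_, rfl⟩
    have hkk : k = k₁ * l := by rw [hk, hm, hk₁]; ring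
    have hk₁M : k₁ ∣ M₁ := by
      have h3 := hkM
      rw [hkk, hM] at h3
      exact Nat.dvd_of_mul_dvd_mul_right hl.pos h3
    have hk₁k : k₁ ∣ k := ⟨l, hkk⟩
    have hk₁0 : k₁ ≠ 0 := fun h0 => hM₁0 (by rw [h0] at hk₁M; exact zero_dvd_iff.mp hk₁M)
    have hψ' : (infl f χ).comp (ZMod.unitsMap hMM) = ψ.comp (ZMod.unitsMap hkM) := hψ
    obtain ⟨ψ₁, hφ, hψ₁⟩ := exists_down hM0 hM hkk hc.symm hk₁M hkM hk₁k hMM hψ'
    have hmin' : ∀ i < j, ¬ Induced (d * p ^ i) (infl f χ) := by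
      rintro i hi ⟨h', ψ', e⟩
      apply hmin i hi
      have h3 : m * p ^ i = d * p ^ i * l := by rw [hm]; ring
      have h4 : m * p ^ i ∣ M := by
        rw [h3, hM]
        exact Nat.mul_dvd_mul_right h' l
      have h5 : d * p ^ i ∣ m * p ^ i := ⟨l, h3⟩
      refine ⟨h4, ψ'.comp (ZMod.unitsMap h5), ?_⟩
      show (infl f χ).comp (ZMod.unitsMap hMM) = _
      rw [e, MonoidHom.comp_assoc, MonoidHom.comp_assoc, ZMod.unitsMap_comp, ZMod.unitsMap_comp]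
    obtain ⟨L, hL, h7⟩ := h1 α hα χ j k₁ hk₁ hk₁M ψ₁ hφ hmin'
    have hlk₁ : l.Coprime k₁ := hc.coprime_dvd_right hk₁M
    have hlk₁' : ¬ l ∣ k₁ := (Nat.Prime.coprime_iff_not_dvd hl).mp hlk₁
    have h5 : (χ (frob f hc) : ℂ) = (ψ₁ (ZMod.unitOfCoprime l hlk₁) : ℂ) := by
      have h8 : χ (frob f hc) = infl f χ (ZMod.unitOfCoprime l hc) := rfl
      rw [h8, hφ, MonoidHom.comp_apply, unitsMap_coprime _ hc hlk₁]
    have h6 : dval k₁ ψ₁ l = (ψ₁ (ZMod.unitOfCoprime l hlk₁) : ℂ) := by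
      unfold dval
      rw [dif_pos hlk₁]
    have h9 : multP p j α (dval k ψ p) = multP p j α (dval k₁ ψ₁ p) := by
      unfold multP
      by_cases hj : j = 0
      · subst hj
        rw [pow_zero, mul_one] at hk₁
        have hp1 : p.Coprime k₁ := by rw [hk₁]; exact hpd
        have hp2 : p.Coprime k := by
          rw [hkk]
          exact Nat.Coprime.mul_right hp1 hpl
        have h10 : dval k ψ p = dval k₁ ψ₁ p := by
          unfold dval
          rw [dif_pos hp1, dif_pos hp2, hψ₁, MonoidHom.comp_apply, unitsMap_coprime _ hp2 hp1]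
        rw [h10]
      · rw [if_neg hj, if_neg hj]
    refine ⟨_, hψ₁ ▸ hL.up' hkk hl hlk₁' hlN, ?_⟩
    rw [ev_eq, ev_eq] at h7 ⊢
    have h11 : tau k ψ = -(ψ₁ (ZMod.unitOfCoprime l hlk₁) : ℂ) * tau k₁ ψ₁ := by
      rw [hψ₁]
      exact tau_mul hkk hk₁0 hl hlk₁.symm ψ₁
    rw [map_mul, map_mul, ev_PQ _ _ hl.ne_zero, h9, h11, h5, h6]
    linear_combination (-(ψ₁ (ZMod.unitOfCoprime l hlk₁) : ℂ) *
      eulerPoly D.W l (ψ₁ (ZMod.unitOfCoprime l hlk₁) : ℂ)⁻¹ 1) * h7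
  · rw [matchW_iff] at h2 ⊢
    rw [map_mul, map_mul, map_mul, PZ_match _ hpl, h2, mul_add, mul_smul_comm]

end MTData

end MTate
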