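import Mathlib
import Pool.Agent.Lib.MP_5deabe_nt_CY.UpW
import Pool.Agent.Lib.MP_5deabe_nt_DF.DetMem

/-!
# The height pairing with the component at `p`
-/

namespace MTate

open MonoidAlgebra

variable {p : ℕ} [hp : Fact p.Prime] {D : MTData}

/-- the conditions on the components -/
def CompW (D : MTData) (p : ℕ) [Fact p.Prime] (w : EQ D.W → EQ D.W → ℤ_[p]ˣ) {M : ℕ}
    (P Q : EQ D.W) (b : Gm M) : Prop :=
  (∀ (l : ℕ) (h : l ∣ M), l.Prime → l ≠ p → ZMod.unitsMap h b = D.comp l P Q) ∧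
    ∀ (j : ℕ) (h : p ^ j ∣ M),
      ZMod.unitsMap h b = Units.map (PadicInt.toZModPow (p := p) j).toMonoidHom (w P Q)

variable {w : EQ D.W → EQ D.W → ℤ_[p]ˣ}

/-- reduction of `p`-adic units -/
theorem toZModPow_unitsMap {i j : ℕ} (h : p ^ i ∣ p ^ j) (x : ℤ_[p]ˣ) :
    ZMod.unitsMap h (Units.map (PadicInt.toZModPow (p := p) j).toMonoidHom x) =
      Units.map (PadicInt.toZModPow (p := p) i).toMonoidHom x := by
  have hij : i ≤ j := (Nat.pow_dvd_pow_iff_le_right hp.out.one_lt).mp h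
  apply Units.ext
  have h1 := DFunLike.congr_fun (PadicInt.zmod_cast_comp_toZModPow (p := p) i j hij) (x : ℤ_[p])
  rw [RingHom.comp_apply] at h1
  simpa [ZMod.unitsMap_def] using h1

theorem exists_compW {M m e : ℕ} (hM : M = m * p ^ e) (hsq : Squarefree m)
    (hpm : p.Coprime m) (P Q : EQ D.W) : ∃ b : Gm M, CompW D p w P Q b := by
  obtain ⟨b₁, hb₁⟩ := exists_of_comp hsq fun l => D.comp l P Q
  have hc : m.Coprime (p ^ e) := (Nat.Coprime.pow_left e hpm).symm
  obtain ⟨b, hb⟩ := (crt_bijective hM hc).2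
    (b₁, Units.map (PadicInt.toZModPow (p := p) e).toMonoidHom (w P Q))
  have hmM : m ∣ M := ⟨p ^ e, hM⟩
  have hpM : p ^ e ∣ M := ⟨m, by rw [hM, mul_comm]⟩
  have hb1 : ZMod.unitsMap hmM b = b₁ := congrArg Prod.fst hb
  have hb2 : ZMod.unitsMap hpM b = Units.map (PadicInt.toZModPow (p := p) e).toMonoidHom (w P Q) :=
    congrArg Prod.snd hb
  refine ⟨b, fun l h hl hlp => ?_, fun j h => ?_⟩
  · have hlm : l ∣ m := by
      rw [hM] at h
      rcases hl.dvd_mul.mp h with h1 | h1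
      · exact h1
      · exact absurd ((Nat.prime_dvd_prime_iff_eq hl hp.out).mp (hl.dvd_of_dvd_pow h1)) hlp
    rw [← hb₁ l hlm hl, ← hb1]
    exact (DFunLike.congr_fun (ZMod.unitsMap_comp hlm hmM) b).symm
  · have hje : p ^ j ∣ p ^ e := by
      have h1 : (p ^ j).Coprime m := Nat.Coprime.pow_left j hpm
      rw [hM] at h
      exact h1.dvd_of_dvd_mul_left h
    have h2 := (DFunLike.congr_fun (ZMod.unitsMap_comp hje hpM) b).symm
    rw [h2, MonoidHom.comp_apply, hb2, toZModPow_unitsMap hje]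

theorem compW_unique {M m e : ℕ} (hM : M = m * p ^ e) (hsq : Squarefree m)
    (hpm : p.Coprime m) {P Q : EQ D.W} {b b' : Gm M} (h : CompW D p w P Q b)
    (h' : CompW D p w P Q b') : b = b' := by
  have hc : m.Coprime (p ^ e) := (Nat.Coprime.pow_left e hpm).symm
  have hmM : m ∣ M := ⟨p ^ e, hM⟩
  have hpM : p ^ e ∣ M := ⟨m, by rw [hM, mul_comm]⟩
  apply (crt_bijective hM hc).1
  refine Prod.ext ?_ ?_
  · show ZMod.unitsMap hmM b = ZMod.unitsMap hmM b'
    rw [← mul_inv_eq_one]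
    refine eq_one_of_unitsMap hsq _ fun l hl hlp => ?_
    have hne : l ≠ p := by
      rintro rfl
      exact (Nat.Prime.coprime_iff_not_dvd hlp).mp hpm hl
    have h1 := h.1 l (hl.trans hmM) hlp hne
    have h2 := h'.1 l (hl.trans hmM) hlp hne
    have e1 := DFunLike.congr_fun (ZMod.unitsMap_comp hl hmM) b
    have e2 := DFunLike.congr_fun (ZMod.unitsMap_comp hl hmM) b'
    rw [MonoidHom.comp_apply] at e1 e2
    rw [map_mul, map_inv, e1, e2, h1, h2, mul_inv_cancel]
  · show ZMod.unitsMap hpM b = ZMod.unitsMap hpM b'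
    rw [h.2 e hpM, h'.2 e hpM]

theorem CompW.down {M M' : ℕ} (h : M' ∣ M) {P Q : EQ D.W} {b : Gm M}
    (hb : CompW D p w P Q b) : CompW D p w P Q (ZMod.unitsMap h b) := by
  refine ⟨fun l hl hlp hne => ?_, fun j hj => ?_⟩
  · have h1 := hb.1 l (hl.trans h) hlp hne
    rw [← h1]
    exact DFunLike.congr_fun (ZMod.unitsMap_comp hl h) b
  · have h1 := hb.2 j (hj.trans h)
    rw [← h1]
    exact DFunLike.congr_fun (ZMod.unitsMap_comp hj h) b

namespace MTData

theorem pairW_spec {M m e : ℕ} (hM : M = m * p ^ e) (hsq : Squarefree m)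
    (hpm : p.Coprime m) (P Q : EQ D.W) {b : Gm M} (hb : CompW D p w P Q b) :
    D.pairW p w M P Q = toGp M b := by
  have h1 := Classical.epsilon_spec (exists_compW (w := w) hM hsq hpm P Q)
  have h2 := compW_unique hM hsq hpm h1 hb
  exact congrArg (toGp M) h2

theorem pairW_res {M m e M' m' e' : ℕ} (hM : M = m * p ^ e) (hsq : Squarefree m)
    (hpm : p.Coprime m) (hM' : M' = m' * p ^ e') (hsq' : Squarefree m')
    (hpm' : p.Coprime m') (h : M' ∣ M) (P Q : EQ D.W) :
    res h (D.pairW p w M P Q) = D.pairW p w M' P Q := by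
  obtain ⟨b, hb⟩ := exists_compW (w := w) hM hsq hpm P Q
  rw [pairW_spec hM hsq hpm P Q hb, pairW_spec hM' hsq' hpm' P Q (hb.down h)]
  rfl

/-- for a conductor prime to `p` this is the Mazur-Tate pairing -/
theorem pairW_eq_pair {m : ℕ} (hsq : Squarefree m) (hpm : p.Coprime m) (P Q : EQ D.W) :
    D.pairW p w m P Q = D.pair m P Q := by
  have h2 := Classical.epsilon_spec (exists_of_comp hsq fun l => D.comp l P Q)
  refine pairW_spec (m := m) (e := 0) (by rw [pow_zero, mul_one]) hsq hpm P Q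
    (b := Classical.epsilon fun a : Gm m =>
      ∀ (l : ℕ) (h : l ∣ m), l.Prime → ZMod.unitsMap h a = D.comp l P Q) ⟨?_, ?_⟩
  · intro l h hl _
    exact h2 l h hl
  · intro j h
    have hj : j = 0 := by
      by_contra hj
      have h3 : p ∣ m := (dvd_pow_self p hj).trans h
      exact (Nat.Prime.coprime_iff_not_dvd hp.out).mp hpm h3
    subst hj
    have : Subsingleton (ZMod (p ^ 0)) := by
      rw [pow_zero]
      infer_instance
    exact Units.ext (Subsingleton.elim _ _)

end MTData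

end MTate
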