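import Mathlib
import Pool.Agent.Lib.MP_5deabe_nt_CY.PairW

/-!
# Regulators of symmetric matrices with entries in an abelian group
-/

namespace MTate

open MonoidAlgebra

variable {p : ℕ} [hp : Fact p.Prime] {D : MTData}

/-- the determinant of `n⁻¹ (β i j - 1)` -/
noncomputable def regB (p : ℕ) [Fact p.Prime] {r : ℕ} {G : Type*} [CommGroup G] (n : ℕ)
    (β : Fin r → Fin r → G) : MonoidAlgebra ℤ_[p] G :=
  Matrix.det (Matrix.of fun i j =>
    algebraMap ℤ_[p] (MonoidAlgebra ℤ_[p] G) (Ring.inverse (n : ℤ_[p])) *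
      (of ℤ_[p] G (β i j) - 1))

section
variable {r : ℕ} {G G' : Type*} [CommGroup G] [CommGroup G']

theorem regB_mem (n : ℕ) (β : Fin r → Fin r → G) : regB p n β ∈ augI ℤ_[p] G ^ r := by
  refine (MTData.det_cong (I := augI ℤ_[p] G) _ (Matrix.of fun i j =>
    algebraMap ℤ_[p] (MonoidAlgebra ℤ_[p] G) (Ring.inverse (n : ℤ_[p])) *
      (of ℤ_[p] G (β i j) - 1)) ?_).1
  intro i j
  refine ⟨?_, by simp⟩
  rw [pow_one]
  exact Ideal.mul_mem_left _ _ (of_sub_one_mem _)

theorem push_regB (n : ℕ) (β : Fin r → Fin r → G) (g : G →* G') :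
    push g (regB p n β) = regB p n fun i j => g (β i j) := by
  unfold regB
  rw [AlgHom.map_det]
  congr 1
  ext i j
  simp only [AlgHom.mapMatrix_apply, Matrix.map_apply, Matrix.of_apply]
  rw [map_mul, AlgHom.commutes, map_sub, push_of, map_one]

theorem regB_degenerate {n : ℕ} {β : Fin r → Fin r → G} {a : Fin r → ℤ}
    (ha : ∃ i, ¬ (p : ℤ) ∣ a i) (h : ∀ j, ∏ i, β i j ^ a i = 1) :
    regB p n β ∈ augI ℤ_[p] G ^ (r + 1) := by
  obtain ⟨i0, hi0⟩ := ha
  unfold regB
  refine det_mem_of_comb _ (fun i j => ?_)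
    (fun i => algebraMap ℤ_[p] (MonoidAlgebra ℤ_[p] G) (a i : ℤ_[p])) i0 ?_ fun j => ?_
  · rw [Matrix.of_apply]
    exact Ideal.mul_mem_left _ _ (of_sub_one_mem _)
  · refine IsUnit.map _ ?_
    rw [PadicInt.isUnit_iff]
    refine le_antisymm (PadicInt.norm_le_one _) ?_
    by_contra hcon
    push Not at hcon
    exact hi0 ((PadicInt.norm_int_lt_one_iff_dvd _).1 hcon)
  · have h1 := of_prod_zpow (p := p) (fun i => β i j) a
    rw [h j, map_one, sub_self, zero_sub, neg_mem_iff] at h1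
    have h3 : ∑ i, algebraMap ℤ_[p] (MonoidAlgebra ℤ_[p] G) (a i : ℤ_[p]) *
        Matrix.of (fun i j => algebraMap ℤ_[p] (MonoidAlgebra ℤ_[p] G)
          (Ring.inverse (n : ℤ_[p])) * (of ℤ_[p] G (β i j) - 1)) i j =
        algebraMap ℤ_[p] (MonoidAlgebra ℤ_[p] G) (Ring.inverse (n : ℤ_[p])) *
          ∑ i, algebraMap ℤ_[p] (MonoidAlgebra ℤ_[p] G) (a i : ℤ_[p]) *
            (of ℤ_[p] G (β i j) - 1) := by
      rw [Finset.mul_sum]
      refine Finset.sum_congr rfl fun i _ => ?_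
      rw [Matrix.of_apply]
      ring
    rw [h3]
    exact Ideal.mul_mem_left _ _ h1

/-- the regulators computed with different multiples -/
theorem regB_change {n n' : ℕ} (hn : p.Coprime n) (hn' : p.Coprime n')
    {β β' : Fin r → Fin r → G} (h : ∀ i j, β i j ^ n' = β' i j ^ n) :
    regB p n β - regB p n' β' ∈ augI ℤ_[p] G ^ (r + 1) := by
  refine (MTData.det_cong (I := augI ℤ_[p] G) _ _ fun i j => ?_).2
  rw [Matrix.of_apply, Matrix.of_apply]
  refine ⟨by rw [pow_one]; exact Ideal.mul_mem_left _ _ (of_sub_one_mem _), ?_⟩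
  have h1 := of_prod_zpow (p := p) (fun _ : Unit => β i j) fun _ => (n' : ℤ)
  have h2 := of_prod_zpow (p := p) (fun _ : Unit => β' i j) fun _ => (n : ℤ)
  rw [Finset.univ_unique, Finset.prod_singleton, Finset.sum_singleton, zpow_natCast,
    Int.cast_natCast] at h1 h2
  rw [h i j] at h1
  set u := of ℤ_[p] G (β i j) - 1
  set u' := of ℤ_[p] G (β' i j) - 1
  have e1 := Ring.inverse_mul_cancel _ (isUnit_cast (p := p) hn)
  have e2 := Ring.inverse_mul_cancel _ (isUnit_cast (p := p) hn')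
  set x := Ring.inverse (n : ℤ_[p])
  set y := Ring.inverse (n' : ℤ_[p])
  have e1' : algebraMap ℤ_[p] (MonoidAlgebra ℤ_[p] G) x *
      algebraMap ℤ_[p] (MonoidAlgebra ℤ_[p] G) (n : ℤ_[p]) = 1 := by
    rw [← map_mul, e1, map_one]
  have e2' : algebraMap ℤ_[p] (MonoidAlgebra ℤ_[p] G) y *
      algebraMap ℤ_[p] (MonoidAlgebra ℤ_[p] G) (n' : ℤ_[p]) = 1 := by
    rw [← map_mul, e2, map_one]
  have h3 := Ideal.mul_mem_left _ (algebraMap ℤ_[p] (MonoidAlgebra ℤ_[p] G) x *
    algebraMap ℤ_[p] (MonoidAlgebra ℤ_[p] G) y) (Ideal.sub_mem _ h2 h1)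
  convert h3 using 1
  linear_combination (-(algebraMap ℤ_[p] (MonoidAlgebra ℤ_[p] G) x) * u) * e2' +
    (algebraMap ℤ_[p] (MonoidAlgebra ℤ_[p] G) y * u') * e1'

end

namespace MTData

variable {w : EQ D.W → EQ D.W → ℤ_[p]ˣ}

theorem regW_eq (n M : ℕ) {G : Type*} [CommGroup G] (f : Gp M →* G) :
    D.regW p w n M f = regB p n fun i j => f (D.pairW p w M (D.x i) (n • D.x j)) := rfl

theorem push_regW (n M : ℕ) {G G' : Type*} [CommGroup G] [CommGroup G'] (f : Gp M →* G)
    (g : G →* G') : push g (D.regW p w n M f) = D.regW p w n M (g.comp f) := by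
  rw [regW_eq, push_regB]
  rfl

theorem regW_res {n M m e M' m' e' : ℕ} (hM : M = m * p ^ e) (hsq : Squarefree m)
    (hpm : p.Coprime m) (hM' : M' = m' * p ^ e') (hsq' : Squarefree m')
    (hpm' : p.Coprime m') (h : M' ∣ M) {G : Type*} [CommGroup G] (f : Gp M' →* G) :
    D.regW p w n M (f.comp (res h)) = D.regW p w n M' f := by
  rw [regW_eq, regW_eq]
  congr 1
  funext i j
  rw [MonoidHom.comp_apply, pairW_res hM hsq hpm hM' hsq' hpm' h]

theorem regW_tame {n m : ℕ} (hsq : Squarefree m) (hpm : p.Coprime m) {G : Type*} [CommGroup G]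
    (f : Gp m →* G) : D.regW p w n m f = D.reg p n m f := by
  unfold regW reg
  congr 1
  ext i j
  rw [Matrix.of_apply, Matrix.of_apply, pairW_eq_pair hsq hpm]
  unfold height
  rw [map_mul, AlgHom.commutes, map_sub, push_of, map_one]

end MTData

end MTate
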