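import Mathlib
import Pool.Agent.Lib.MP_5deabe_nt_CY.RegB
import Pool.Agent.Lib.MP_5deabe_nt_DF.Final

/-!
# The same constant for the tame fields and for the fields in `ℚ(ζ_{t p^{n+1}})⁺`
-/

namespace MTate

open MonoidAlgebra

variable {p : ℕ} [hp : Fact p.Prime] {D : MTData}

namespace MTData

/-- the right hand side of the leading term formula with constant `c` -/
noncomputable def rhsW (D : MTData) (p : ℕ) [Fact p.Prime] (a : ℤ_[p])
    (w : EQ D.W → EQ D.W → ℤ_[p]ˣ) (c : ℤ_[p]) (n m M : ℕ) {G : Type*} [CommGroup G]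
    (f : Gp M →* G) : MonoidAlgebra ℤ_[p] G :=
  algebraMap ℤ_[p] (MonoidAlgebra ℤ_[p] G) ((1 - Ring.inverse a) ^ 2 *
    ((-1) ^ m.primeFactors.card *
      (c * ∏ l ∈ m.primeFactors, (nsCard D.W l : ℤ_[p]) * Ring.inverse (l : ℤ_[p])))) *
    D.regW p w n M f

variable {a : ℤ_[p]} {w : EQ D.W → EQ D.W → ℤ_[p]ˣ}

theorem push_rhsW (c : ℤ_[p]) (n m M : ℕ) {G G' : Type*} [CommGroup G] [CommGroup G']
    (f : Gp M →* G) (g : G →* G') :
    push g (D.rhsW p a w c n m M f) = D.rhsW p a w c n m M (g.comp f) := by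
  unfold rhsW
  rw [map_mul, AlgHom.commutes, push_regW]

theorem rhsW_mem (c : ℤ_[p]) (n m M : ℕ) {G : Type*} [CommGroup G] (f : Gp M →* G) :
    D.rhsW p a w c n m M f ∈ augI ℤ_[p] G ^ D.r := by
  unfold rhsW
  rw [regW_eq]
  exact Ideal.mul_mem_left _ _ (regB_mem _ _)

theorem linkW (hD : D.Valid p) (hr1 : 1 ≤ D.r) (hr : D.r < p) (hP : D.Pairing2 p)
    (hPW : D.PairingW p w) (ha : D.UnitRoot p a) {n : ℕ} (hn : 1 ≤ n) {t : ℕ} (ht : D.Adm p t)
    (htp : ∀ l ∈ t.primeFactors, p ^ n ∣ l - 1) (hind : D.Independent p t)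
    (hVW : D.VanishW p a w n t) {c : ℤ_[p]}
    (hc : ∀ m, D.Adm p m → ∀ (G : Type) [CommGroup G] (f : Gp m →* G), IsField m f →
      Lev p n G → D.Q1c p c m f) {n' : ℕ} (hn' : p.Coprime n')
    (hES : ∀ j, D.InES (t * p) (n' • D.x j))
    {θ : MonoidAlgebra ℤ_[p] (Gp (t * p ^ (n + 1)))}
    (hθ : D.IsThetaW p a t (t * p ^ (n + 1)) (MonoidHom.id _) θ) :
    ∀ (G : Type) [CommGroup G] [Finite G] (f : Gp (t * p ^ (n + 1)) →* G), Lev p n G →
      push f (θ - D.rhsW p a w c n' t (t * p ^ (n + 1)) (MonoidHom.id _)) ∈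
        augI ℤ_[p] G ^ (D.r + 1) := by
  have hsq : Squarefree t := ht.1
  have hpt : p.Coprime t := ht.2.2.1
  have ht0 : t ≠ 0 := hsq.ne_zero
  have hp2 := hD.ne_two
  have hp0 : p ≠ 0 := hp.out.ne_zero
  have htM : t ∣ t * p ^ (n + 1) := dvd_mul_right _ _
  have hM0 : t * p ^ (n + 1) ≠ 0 := mul_ne_zero ht0 (pow_ne_zero _ hp0)
  have hfin := finite_Gp hM0
  have hESt : ∀ j, D.InES t (n' • D.x j) := fun j => (hES j).of_dvd (dvd_mul_right _ _)
  have hst : t = t * p ^ 0 := by rw [pow_zero, mul_one]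
  have hres : ∀ P Q : EQ D.W, res htM (D.pairW p w (t * p ^ (n + 1)) P Q) = D.pair t P Q := by
    intro P Q
    rw [pairW_res (m := t) (e := n + 1) rfl hsq hpt (m' := t) (e' := 0) hst hsq hpt htM,
      pairW_eq_pair hsq hpt]
  obtain ⟨H, hHg, hHf, κ, hκs, hHp, hκ⟩ := exists_quot (p := p) (Gp (t * p ^ (n + 1))) n
  set x := θ - D.rhsW p a w c n' t (t * p ^ (n + 1)) (MonoidHom.id _) with hx
  have h5 : 5 ≤ p := hD.five_le
  have hcore := core2 (p := p) h5 hr1 hr hn hHp
    (fun i j => κ (D.pairW p w (t * p ^ (n + 1)) (D.x i) (n' • D.x j)))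
    (fun i j => by
      refine pow_cancel hn' (hHp _) (hHp _) ?_
      rw [← map_pow, ← map_pow, ← hPW.left t _ ht (D.x i) _ n' (hES j),
        ← hPW.left t _ ht (D.x j) _ n' (hES i), hPW.symm t _ ht _ _ (hES i) (hES j)])
    (fun S hS => by
      obtain ⟨ψ, hψ⟩ := pair_onto hp2 hP ht dvd_rfl hn htp hind hn' hESt S hS
      obtain ⟨ψ', hψ'⟩ := hκ (Cpn p n) (ψ.comp (res htM)) (fun g => Cpn_pow_card _)
      refine ⟨ψ', fun i j => ?_⟩
      rw [← MonoidHom.comp_apply, hψ', MonoidHom.comp_apply, hres, hψ])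
    (x := push κ x)
    (fun j hj ψ hψ => by
      obtain ⟨b, hb, hψb⟩ := hψ
      rw [push_push]
      obtain ⟨i, hij, ω', hω's, ι, hι, hω⟩ := hom_factor_range (ψ.comp κ)
      have hE : ∀ j', ω' (∏ i, D.pairW p w (t * p ^ (n + 1)) (D.x i) (n' • D.x j') ^ b i) =
          1 := by
        intro j'
        have h1 : (ψ.comp κ) (∏ i, D.pairW p w (t * p ^ (n + 1)) (D.x i)
            (n' • D.x j') ^ b i) = 1 := by
          rw [MonoidHom.comp_apply, map_prod]
          simp only [map_zpow]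
          exact hψb j'
        rw [← hω, MonoidHom.comp_apply] at h1
        exact hι (h1.trans (map_one ι).symm)
      obtain ⟨θ', hθ', hθI⟩ := hVW i (hij.trans hj) ω' hω's ⟨n', hn', hES, b, hb, hE⟩
      have hfin2 := Cpn_finite (p := p) i
      have h1 := hθ.push' ω'
      rw [MonoidHom.comp_id] at h1
      have h2 := h1.unique hp2 rfl hθ'
      have h3 : push ω' x ∈ augI ℤ_[p] (Cpn p i) ^ (D.r + 1) := by
        rw [hx, map_sub, h2, push_rhsW, MonoidHom.comp_id]
        refine Ideal.sub_mem _ hθI (Ideal.mul_mem_left _ _ ?_)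
        rw [regW_eq]
        refine regB_degenerate hb fun j' => ?_
        have h4 := hE j'
        rw [map_prod] at h4
        simpa only [map_zpow] using h4
      rw [← hω, ← push_push]
      exact push_mem ι h3)
  -- a perfect tame field
  have hperf : ∃ ω : H →* Cpn p n,
      IsUnit (Matrix.of fun i j => Multiplicative.toAdd
        (ω (κ (D.pairW p w (t * p ^ (n + 1)) (D.x i) (n' • D.x j))))).det ∧
        push ω (push κ x) ∈ augI ℤ_[p] (Cpn p n) ^ (D.r + 1) := by
    obtain ⟨d, f, hd, hf, -, hdiag⟩ := exists_perfect hD hr1 hP hn ht htp hind hn' hESt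
    have hfin2 := Cpn_finite (p := p) n
    have hdiag' : ∀ i j, (f.comp (res hd)) (D.pair t (D.x i) (n' • D.x j)) =
        if i = j then gam p n ^ n' else 1 := by
      intro i j
      rw [MonoidHom.comp_apply, pair_res hsq hd, hdiag]
    obtain ⟨ω, hω⟩ := hκ (Cpn p n) ((f.comp (res hd)).comp (res htM)) (fun g => Cpn_pow_card _)
    have hωv : ∀ i j, ω (κ (D.pairW p w (t * p ^ (n + 1)) (D.x i) (n' • D.x j))) =
        if i = j then gam p n ^ n' else 1 := by
      intro i j
      rw [← MonoidHom.comp_apply, hω, MonoidHom.comp_apply, hres, hdiag']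
    refine ⟨ω, ?_, ?_⟩
    · have h1 : (Matrix.of fun i j => Multiplicative.toAdd
          (ω (κ (D.pairW p w (t * p ^ (n + 1)) (D.x i) (n' • D.x j))))) =
          Matrix.diagonal fun _ => (n' : ZMod (p ^ n)) := by
        ext i j
        rw [Matrix.of_apply, hωv]
        by_cases hij : i = j
        · subst hij
          rw [if_pos rfl, Matrix.diagonal_apply_eq, toAdd_pow]
          unfold gam
          rw [toAdd_ofAdd, nsmul_eq_mul, mul_one]
        · rw [if_neg hij, Matrix.diagonal_apply_ne _ hij]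
          rfl
      rw [h1, Matrix.det_diagonal, Finset.prod_const]
      exact ((ZMod.isUnit_iff_coprime n' (p ^ n)).2
        (Nat.Coprime.pow_right n hn'.symm)).pow _
    · rw [push_push, hω]
      have hA : D.Compat p t (D.r + 1) (D.rhsC p c n') := compatC ht c
      have hQ := hc d (ht.of_dvd hd) (Cpn p n) f hf (lev_Cpn le_rfl)
      obtain ⟨θ₁, h1, h2⟩ := (hQ.stmt hn' fun j => (hESt j).of_dvd hd).up_dvd ht hA hd dvd_rfl
      have h3 := hθ.push' ((f.comp (res hd)).comp (res htM))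
      rw [MonoidHom.comp_id] at h3
      have h4 := IsThetaW.tame hp2 ha hpt htM h3 h1
      have h6 : D.rhsW p a w c n' t (t * p ^ (n + 1)) ((f.comp (res hd)).comp (res htM)) =
          algebraMap ℤ_[p] _ ((1 - Ring.inverse a) ^ 2) *
            D.rhsC p c n' t (Cpn p n) (f.comp (res hd)) := by
        unfold rhsW rhsC
        rw [regW_res (m := t) (e := n + 1) rfl hsq hpt (m' := t) (e' := 0) hst hsq hpt htM,
          regW_tame hsq hpt, map_mul, mul_assoc]
      rw [hx, map_sub, push_rhsW, MonoidHom.comp_id, h4, h6]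
      have h7 : θ₁ ∈ augI ℤ_[p] (Cpn p n) ^ D.r := by
        have h8 : D.rhsC p c n' t (Cpn p n) (f.comp (res hd)) ∈ augI ℤ_[p] (Cpn p n) ^ D.r :=
          Ideal.mul_mem_left _ _ (reg_mem n' t _)
        have h9 := Ideal.add_mem _ (Ideal.pow_le_pow_right (Nat.le_succ D.r) h2) h8
        rwa [sub_add_cancel] at h9
      have h8 : (EP a (frob (f.comp (res hd)) hpt) -
          algebraMap ℤ_[p] _ ((1 - Ring.inverse a) ^ 2)) * θ₁ ∈
            augI ℤ_[p] (Cpn p n) ^ (D.r + 1) := by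
        rw [pow_succ']
        exact Ideal.mul_mem_mul (EP_sub_mem a _) h7
      have h9 := Ideal.add_mem _ h8
        (Ideal.mul_mem_left _ (algebraMap ℤ_[p] _ ((1 - Ring.inverse a) ^ 2)) h2)
      convert h9 using 1
      ring
  have hmem := hcore.2 hperf
  intro G _ _ f hG
  refine cyc_detect hr fun n'' φ => ?_
  obtain ⟨k, hk, hk'⟩ := hG
  obtain ⟨φ', hφ'⟩ := hκ (Cpn p n'') (φ.comp f) (fun g => by
    refine order_pow hk ?_
    rw [MonoidHom.comp_apply, ← map_pow, hk', map_one])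
  rw [push_push, ← hφ', ← push_push]
  exact push_mem φ' hmem

end MTData

end MTate
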