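import Mathlib
import Pool.Agent.Lib.MP_5deabe_nt_CY.Link

/-!
# Removing the tame primes: the `p`-adic `L`-function of `E`
-/

namespace MTate

open MonoidAlgebra

variable {p : ℕ} [hp : Fact p.Prime] {D : MTData}

namespace MTData

variable {a : ℤ_[p]} {w : EQ D.W → EQ D.W → ℤ_[p]ˣ}

/-- equality of levels -/
theorem IsThetaW.cast {m M M' : ℕ} (hM : M = M') {G : Type*} [CommGroup G] {f : Gp M' →* G}
    {θ : MonoidAlgebra ℤ_[p] G} (h : D.IsThetaW p a m M' f θ) (hd : M' ∣ M) :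
    D.IsThetaW p a m M (f.comp (res hd)) θ := by
  subst hM
  have h1 : f.comp (res hd) = f := by
    ext x
    rw [MonoidHom.comp_apply, res_self]
  rwa [h1]

theorem regW_cast {n M M' : ℕ} (hM : M = M') {G : Type*} [CommGroup G] (f : Gp M' →* G)
    (hd : M' ∣ M) : D.regW p w n M (f.comp (res hd)) = D.regW p w n M' f := by
  subst hM
  have h1 : f.comp (res hd) = f := by
    ext x
    rw [MonoidHom.comp_apply, res_self]
  rw [h1]

/-- one tame prime -/
theorem downW {c : ℤ_[p]} {n' d m l M₁ M e : ℕ} (hA : D.Adm p m) (hm : m = d * l)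
    (hM₁ : M₁ = d * p ^ e) (hM : M = M₁ * l) (hl : l.Prime) {G : Type*} [CommGroup G] [Finite G]
    {f : Gp M₁ →* G} {θ : MonoidAlgebra ℤ_[p] G} (h : D.IsThetaW p a d M₁ f θ)
    (h' : ∀ θ', D.IsThetaW p a m M (f.comp (res (m := M) (d := M₁) ⟨l, hM⟩)) θ' →
      θ' - D.rhsW p a w c n' m M (f.comp (res (m := M) (d := M₁) ⟨l, hM⟩)) ∈
        augI ℤ_[p] G ^ (D.r + 1)) :
    θ - D.rhsW p a w c n' d M₁ f ∈ augI ℤ_[p] G ^ (D.r + 1) := by
  have hlm : l ∣ m := ⟨d, by rw [hm, mul_comm]⟩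
  have hdm : d ∣ m := ⟨l, hm⟩
  have hAd := hA.of_dvd hdm
  have hpl : p.Coprime l := hA.2.2.1.coprime_dvd_right hlm
  have hpd : p.Coprime d := hAd.2.2.1
  have hcd : d.Coprime l := hA.coprime_of_eq hm
  have hpn : p.Coprime (nsCard D.W l) :=
    hA.2.2.2 l (Nat.mem_primeFactors.mpr ⟨hl, hlm, hA.1.ne_zero⟩)
  have hlN : ¬ l ∣ D.N := fun h0 =>
    (Nat.Prime.coprime_iff_not_dvd hl).mp (hA.2.1.coprime_dvd_left hlm) h0
  have hc : l.Coprime M₁ := by
    rw [hM₁]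
    exact Nat.Coprime.mul_right hcd.symm (Nat.Coprime.pow_right e hpl.symm)
  have hM0 : M ≠ 0 := by
    rw [hM, hM₁]
    exact mul_ne_zero (mul_ne_zero hAd.1.ne_zero (pow_ne_zero _ hp.out.ne_zero)) hl.ne_zero
  have hMm : M = m * p ^ e := by
    rw [hM, hM₁, hm]
    ring
  have h1 := h' _ (h.up hm hM hM0 hl hlN hpl hpd hc)
  set c' : ℤ_[p] := -((nsCard D.W l : ℤ_[p]) * Ring.inverse (l : ℤ_[p])) with hc'
  have h2 : D.rhsW p a w c n' m M (f.comp (res (m := M) (d := M₁) ⟨l, hM⟩)) =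
      algebraMap ℤ_[p] _ c' * D.rhsW p a w c n' d M₁ f := by
    unfold rhsW
    rw [coeffC_rel hm hA hl c, regW_res hMm hA.1 hA.2.2.1 hM₁ hAd.1 hpd ⟨l, hM⟩, ← hc',
      ← mul_assoc (algebraMap ℤ_[p] _ c'), ← map_mul]
    congr 2
    ring
  rw [h2] at h1
  have h3 := PZ_sub_mem (p := p) D.W hpl (frob f hc)
  rw [← hc'] at h3
  have h4 : (PZ D.W l (frob f hc) - algebraMap ℤ_[p] _ c') * D.rhsW p a w c n' d M₁ f ∈
      augI ℤ_[p] G ^ (D.r + 1) := by
    rw [pow_succ']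
    exact Ideal.mul_mem_mul h3 (rhsW_mem _ _ _ _ _)
  have h5 : PZ D.W l (frob f hc) * (θ - D.rhsW p a w c n' d M₁ f) ∈
      augI ℤ_[p] G ^ (D.r + 1) := by
    have h6 := Ideal.sub_mem _ h1 h4
    convert h6 using 1
    ring
  refine mem_of_mul_mem ?_ h3 h5
  refine IsUnit.neg ((isUnit_cast hpn).mul ?_)
  exact (isUnit_cast hpl).ringInverse

/-- all tame primes -/
theorem down_allW {c : ℤ_[p]} {n' e : ℕ} {G : Type*} [CommGroup G] [Finite G]
    {f : Gp (p ^ e) →* G} {θ : MonoidAlgebra ℤ_[p] G} (h : D.IsThetaW p a 1 (p ^ e) f θ)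
    {m : ℕ} (hA : D.Adm p m)
    (h' : ∀ θ', D.IsThetaW p a m (m * p ^ e) (f.comp (res (dvd_mul_left _ _))) θ' →
      θ' - D.rhsW p a w c n' m (m * p ^ e) (f.comp (res (dvd_mul_left _ _))) ∈
        augI ℤ_[p] G ^ (D.r + 1)) :
    θ - D.rhsW p a w c n' 1 (p ^ e) f ∈ augI ℤ_[p] G ^ (D.r + 1) := by
  induction m using Nat.strong_induction_on with
  | _ m ih =>
    rcases eq_or_ne m 1 with rfl | hm1
    · have h1 := h' θ (h.cast (one_mul _) _)
      have h2 : D.rhsW p a w c n' 1 (1 * p ^ e) (f.comp (res (dvd_mul_left _ _))) =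
          D.rhsW p a w c n' 1 (p ^ e) f := by
        unfold rhsW
        rw [regW_cast (one_mul _)]
      rwa [h2] at h1
    · obtain ⟨q, hq, d, hd⟩ := Nat.exists_prime_and_dvd hm1
      have hmd : m = d * q := by rw [hd, mul_comm]
      have hm0 : m ≠ 0 := hA.1.ne_zero
      have hd0 : 0 < d := Nat.pos_of_dvd_of_pos ⟨q, hmd⟩ (Nat.pos_of_ne_zero hm0)
      have hlt : d < m := by
        rw [hmd]
        exact lt_mul_of_one_lt_right hd0 hq.one_lt
      refine ih d hlt (hA.of_dvd ⟨q, hmd⟩) fun θ' hθ' => ?_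
      have hM : m * p ^ e = d * p ^ e * q := by
        rw [hmd]
        ring
      refine downW hA hmd rfl hM hq hθ' fun θ'' hθ'' => ?_
      have h3 : (f.comp (res (dvd_mul_left (p ^ e) d))).comp
          (res (m := m * p ^ e) (d := d * p ^ e) ⟨q, hM⟩) =
          f.comp (res (dvd_mul_left (p ^ e) m)) := by
        ext x
        rw [MonoidHom.comp_apply, MonoidHom.comp_apply, MonoidHom.comp_apply, res_res]
      rw [h3] at hθ'' ⊢
      exact h' θ'' hθ''

end MTData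

end MTate
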