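import Mathlib
import Pool.Agent.Lib.MP_5deabe_nt_CY.DownW
import Pool.Agent.Lib.MP_5deabe_nt.Avg

/-!
# The group `Gal(ℚ(ζ_{p^{n+1}})⁺/ℚ)` and the leading coefficients of its group ring
-/

namespace MTate

open MonoidAlgebra

variable {p : ℕ} [hp : Fact p.Prime] {D : MTData}

/-- the `p`-part of the exponent -/
theorem lev_Gp (n : ℕ) : MTData.Lev p n (Gp (p ^ (n + 1))) := by
  have h0 : p ^ (n + 1) ≠ 0 := pow_ne_zero _ hp.out.ne_zero
  have : NeZero (p ^ (n + 1)) := ⟨h0⟩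
  refine ⟨p - 1, ?_, fun g => ?_⟩
  · have h1 := hp.out.one_lt
    rw [Nat.Prime.coprime_iff_not_dvd hp.out]
    exact Nat.not_dvd_of_pos_of_lt (by omega) (by omega)
  · obtain ⟨x, rfl⟩ := toGp_surjective _ g
    have h2 : x ^ (p ^ n * (p - 1)) = 1 := by
      have h3 := ZMod.pow_totient x
      rwa [Nat.totient_prime_pow_succ hp.out] at h3
    rw [← map_pow, h2, map_one]

/-- every finite abelian group has a level -/
theorem exists_lev (G : Type*) [CommGroup G] [Finite G] : ∃ n, 1 ≤ n ∧ MTData.Lev p n G := by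
  have hcard : Nat.card G ≠ 0 := Nat.card_pos.ne'
  obtain ⟨n, k, hk, hn⟩ := Nat.exists_eq_pow_mul_and_not_dvd hcard p hp.out.one_lt.ne'
  refine ⟨n + 1, by omega, k, (Nat.Prime.coprime_iff_not_dvd hp.out).mpr hk, fun g => ?_⟩
  have h1 : p ^ (n + 1) * k = Nat.card G * p := by
    rw [hn]
    ring
  rw [h1, pow_mul, pow_card_eq_one', one_pow]

/-- a generator and a homomorphism onto `ℤ/p^n` -/
theorem exists_cycGen (hp2 : p ≠ 2) (n : ℕ) : ∃ (γ : Gp (p ^ (n + 1)))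
    (φ : Gp (p ^ (n + 1)) →* Cpn p n), Subgroup.closure (Set.range fun _ : Unit => γ) = ⊤ ∧
      φ γ = gam p n := by
  have h0 : p ^ (n + 1) ≠ 0 := pow_ne_zero _ hp.out.ne_zero
  have : NeZero (p ^ (n + 1)) := ⟨h0⟩
  have hcyc : IsCyclic (Gm (p ^ (n + 1))) := ZMod.isCyclic_units_of_prime_pow p hp.out hp2 _
  obtain ⟨g, hg⟩ := hcyc.exists_generator
  have hord : orderOf (gam p n) ∣ orderOf g := by
    have h1 : orderOf g = p ^ n * (p - 1) := by
      rw [orderOf_eq_card_of_forall_mem_zpowers hg, Nat.card_eq_fintype_card,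
        ZMod.card_units_eq_totient, Nat.totient_prime_pow_succ hp.out]
    rw [h1]
    exact (orderOf_dvd_of_pow_eq_one (gam_pow_card n)).trans (dvd_mul_right _ _)
  obtain ⟨φ, hφ⟩ := exists_hom_Gp hp2 (monoidHomOfForallMemZpowers hg hord)
  refine ⟨toGp _ g, φ, ?_, ?_⟩
  · rw [eq_top_iff]
    intro y _
    obtain ⟨x, rfl⟩ := toGp_surjective _ y
    obtain ⟨i, rfl⟩ := hg x
    have h2 : toGp (p ^ (n + 1)) ((fun i : ℤ => g ^ i) i) = toGp (p ^ (n + 1)) g ^ i :=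
      map_zpow _ _ _
    rw [h2]
    exact Subgroup.zpow_mem _ (Subgroup.subset_closure (Set.mem_range_self ())) _
  · rw [hφ, monoidHomOfForallMemZpowers_apply_gen]

/-- the leading coefficient -/
theorem exists_coeffG {G : Type*} [CommGroup G] {γ : G}
    (hγ : Subgroup.closure (Set.range fun _ : Unit => γ) = ⊤) {k : ℕ}
    {y : MonoidAlgebra ℤ_[p] G} (hy : y ∈ augI ℤ_[p] G ^ k) : ∃ b : ℤ_[p],
      y - algebraMap ℤ_[p] _ b * (of ℤ_[p] G γ - 1) ^ k ∈ augI ℤ_[p] G ^ (k + 1) := by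
  obtain ⟨F, hF, hF'⟩ := exists_homog hγ k hy
  refine ⟨MvPolynomial.eval (fun _ => 1) F, ?_⟩
  have h1 := aeval_smul_homog (A := MonoidAlgebra ℤ_[p] G) hF (fun _ : Unit => (1 : ℤ_[p]))
    (of ℤ_[p] G γ - 1)
  simp only [map_one, one_mul] at h1
  rw [← h1]
  exact hF'

theorem dvd_of_mem {n r : ℕ} (hr : r < p) {b : ℤ_[p]}
    (h : algebraMap ℤ_[p] (MonoidAlgebra ℤ_[p] (Cpn p n)) b *
      (of ℤ_[p] (Cpn p n) (gam p n) - 1) ^ r ∈ augI ℤ_[p] (Cpn p n) ^ (r + 1)) :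
    (p : ℤ_[p]) ^ n ∣ b := by
  have h1 := eval_dvd_of_push (p := p) (ι := Unit) (G := Cpn p n) (g := fun _ => gam p n)
    (k := r) (n := n) hr (F := MvPolynomial.C b * MvPolynomial.X () ^ r)
    (MvPolynomial.isHomogeneous_C_mul_X_pow b () r) (MonoidHom.id _) (fun _ => 1)
    (fun _ => by rw [pow_one]; rfl) (by
      rw [push_id]
      unfold Phi
      rw [map_mul, map_pow, MvPolynomial.aeval_X, MvPolynomial.aeval_C]
      exact h)
  rw [map_mul, map_pow, MvPolynomial.eval_X, MvPolynomial.eval_C, Nat.cast_one, one_pow,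
    mul_one] at h1
  exact h1

/-- if `p ^ v y` vanishes in `I^r/I^{r+1}` at the level `n + v` then `y` vanishes at the
level `n` -/
theorem level_drop (hp2 : p ≠ 2) {n v r : ℕ} (hr1 : 1 ≤ r) (hr : r < p)
    {y : MonoidAlgebra ℤ_[p] (Gp (p ^ (n + v + 1)))}
    (hy : y ∈ augI ℤ_[p] (Gp (p ^ (n + v + 1))) ^ r)
    (h : algebraMap ℤ_[p] _ ((p : ℤ_[p]) ^ v) * y ∈
      augI ℤ_[p] (Gp (p ^ (n + v + 1))) ^ (r + 1))
    (hd : p ^ (n + 1) ∣ p ^ (n + v + 1)) :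
    push (res hd) y ∈ augI ℤ_[p] (Gp (p ^ (n + 1))) ^ (r + 1) := by
  obtain ⟨γ, φ, hγ, hφ⟩ := exists_cycGen hp2 (n + v)
  obtain ⟨b, hb⟩ := exists_coeffG hγ hy
  have h1 : algebraMap ℤ_[p] (MonoidAlgebra ℤ_[p] (Gp (p ^ (n + v + 1)))) ((p : ℤ_[p]) ^ v * b) *
      (of ℤ_[p] _ γ - 1) ^ r ∈ augI ℤ_[p] _ ^ (r + 1) := by
    have h2 := Ideal.sub_mem _ h (Ideal.mul_mem_left _ (algebraMap ℤ_[p] _ ((p : ℤ_[p]) ^ v)) hb)
    convert h2 using 1
    rw [map_mul]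
    ring
  have h2 := push_mem φ h1
  rw [map_mul, AlgHom.commutes, map_pow, map_sub, push_of, map_one, hφ] at h2
  have h3 := dvd_of_mem hr h2
  obtain ⟨b', rfl⟩ : (p : ℤ_[p]) ^ n ∣ b := by
    rw [add_comm, pow_add] at h3
    exact (mul_dvd_mul_iff_left (pow_ne_zero _ (PadicInt.prime_p (p := p)).ne_zero)).mp h3
  have h4 := push_mem (res hd) hb
  rw [map_sub, map_mul, AlgHom.commutes, map_pow, map_sub, push_of, map_one] at h4
  have h5 : (of ℤ_[p] (Gp (p ^ (n + 1))) (res hd γ) - 1) ^ r ∈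
      augI ℤ_[p] (Gp (p ^ (n + 1))) ^ r := Ideal.pow_mem_pow (of_sub_one_mem _) r
  have h6 := pow_mul_mem_of_lev (lev_Gp n) hr1 (Ideal.mul_mem_left _
    (algebraMap ℤ_[p] _ b') h5)
  have h7 := Ideal.add_mem _ h4 h6
  convert h7 using 1
  rw [map_mul]
  ring

end MTate
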