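import Mathlib
import Pool.Agent.Lib.MP_5deabe_nt_CY.CycG

/-!
# Mazur-Tate for all tame fields and the `p`-adic Birch and Swinnerton-Dyer formula
-/

namespace MTate

open MonoidAlgebra

variable {p : ℕ} [hp : Fact p.Prime] {D : MTData}

namespace MTData

variable {a : ℤ_[p]} {w : EQ D.W → EQ D.W → ℤ_[p]ˣ}

theorem adm_one : D.Adm p 1 := by
  refine ⟨squarefree_one, Nat.coprime_one_left _, Nat.coprime_one_right _, ?_⟩
  intro l hl
  rw [Nat.primeFactors_one] at hl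
  exact absurd hl (Finset.notMem_empty l)

/-- the regulators computed with two multiples -/
theorem regW_change (h : D.PairingW p w) {m n n' e M : ℕ} (hm : D.Adm p m)
    (hM : M = m * p ^ e) (hn : p.Coprime n) (hn' : p.Coprime n')
    (hES : ∀ j, D.InES (m * p) (n • D.x j)) (hES' : ∀ j, D.InES (m * p) (n' • D.x j))
    {G : Type*} [CommGroup G] (f : Gp M →* G) :
    D.regW p w n M f - D.regW p w n' M f ∈ augI ℤ_[p] G ^ (D.r + 1) := by
  subst hM
  rw [regW_eq, regW_eq]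
  refine regB_change hn hn' fun i j => ?_
  rw [← map_pow, ← map_pow, ← h.right m e hm _ _ n' (hES j), ← h.right m e hm _ _ n (hES' j),
    smul_smul, smul_smul, Nat.mul_comm n' n]

theorem Q1W.of_mem (hPW : D.PairingW p w) {c : ℤ_[p]} {m M e n : ℕ} (hm : D.Adm p m)
    (hM : M = m * p ^ e) (hn : p.Coprime n) (hES : ∀ j, D.InES (m * p) (n • D.x j))
    {G : Type*} [CommGroup G] {f : Gp M →* G} {θ : MonoidAlgebra ℤ_[p] G}
    (hθ : D.IsThetaW p a m M f θ)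
    (h : θ - D.rhsW p a w c n m M f ∈ augI ℤ_[p] G ^ (D.r + 1)) : D.Q1W p a w c m M f := by
  refine ⟨θ, hθ, ?_, fun n' hn' hES' => ?_⟩
  · have h4 := Ideal.add_mem _ (Ideal.pow_le_pow_right (Nat.le_succ D.r) h)
      (rhsW_mem (a := a) (w := w) c n m M f)
    rwa [sub_add_cancel] at h4
  · unfold rhsW at h
    have h4 := Ideal.mul_mem_left _ (algebraMap ℤ_[p] _ ((1 - Ring.inverse a) ^ 2 *
      ((-1) ^ m.primeFactors.card *
        (c * ∏ l ∈ m.primeFactors, (nsCard D.W l : ℤ_[p]) * Ring.inverse (l : ℤ_[p])))))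
      (regW_change hPW hm hM hn hn' hES hES' f)
    have h5 := Ideal.add_mem _ h h4
    convert h5 using 1
    ring

theorem one_sub_inv_unit (hD : D.Valid p) (ha : D.UnitRoot p a) :
    IsUnit (1 - Ring.inverse a) := by
  have h1 := Ring.mul_inverse_cancel _ ha.1
  have h2 : IsUnit ((nsCard D.W p : ℕ) : ℤ_[p]) := by
    refine isUnit_cast ?_
    refine hD.good.coprime_dvd_right ?_
    refine Dvd.dvd.mul_left (Finset.dvd_prod_of_mem _ ?_) _
    refine Nat.mem_primeFactors.mpr ⟨hp.out, dvd_mul_right _ _, ?_⟩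
    refine mul_ne_zero hp.out.ne_zero ?_
    intro hN
    have h3 := hD.good
    rw [hN] at h3
    simp only [mul_zero, zero_mul, Nat.coprime_zero_right] at h3
    exact hp.out.one_lt.ne' h3
  have h3 : (1 - a) * (1 - p * Ring.inverse a) = nsCard D.W p := by
    have h4 := ha.2
    have h5 : Ring.inverse a * (a ^ 2 - ((p : ℤ_[p]) + 1 - nsCard D.W p) * a + p) = 0 := by
      rw [h4, mul_zero]
    linear_combination -h5 + (a - ((p : ℤ_[p]) + 1 - nsCard D.W p) + p) * h1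
  have h4 : IsUnit (1 - a) := by
    rw [← h3] at h2
    exact isUnit_of_mul_isUnit_left h2
  have h5 : 1 - Ring.inverse a = -(Ring.inverse a) * (1 - a) := by linear_combination -h1
  rw [h5]
  exact ha.1.ringInverse.neg.mul h4

/-- the leading term formula for the fields in `ℚ(ζ_{t p^{n+1}})⁺` -/
theorem q1w_of_q1c (hD : D.Valid p) (hr1 : 1 ≤ D.r) (hr : D.r < p) (hP : D.Pairing2 p)
    (hPW : D.PairingW p w) (ha : D.UnitRoot p a) (hIW : D.IntegralW p a) {n : ℕ} (hn : 1 ≤ n)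
    {t : ℕ} (ht : D.Adm p t) (htp : ∀ l ∈ t.primeFactors, p ^ n ∣ l - 1)
    (hind : D.Independent p t) (hVW : D.VanishW p a w n t) {c : ℤ_[p]}
    (hc : ∀ m, D.Adm p m → ∀ (G : Type) [CommGroup G] (f : Gp m →* G), IsField m f →
      Lev p n G → D.Q1c p c m f) (G : Type) [CommGroup G] {f : Gp (t * p ^ (n + 1)) →* G}
    (hf : Function.Surjective f) (hG : Lev p n G) :
    D.Q1W p a w c t (t * p ^ (n + 1)) f := by
  obtain ⟨n', hn', hES⟩ := hPW.ext t ht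
  obtain ⟨θ, hθ⟩ := hIW t ht n
  have hfin : Finite (Gp (t * p ^ (n + 1))) :=
    finite_Gp (mul_ne_zero ht.1.ne_zero (pow_ne_zero _ hp.out.ne_zero))
  have hfinG : Finite G := Finite.of_surjective f hf
  have h1 := linkW hD hr1 hr hP hPW ha hn ht htp hind hVW hc hn' hES hθ G f hG
  rw [map_sub, push_rhsW, MonoidHom.comp_id] at h1
  have h2 := hθ.push' f
  rw [MonoidHom.comp_id] at h2
  exact Q1W.of_mem hPW ht rfl hn' hES h2 h1

/-- **the `p`-adic leading term formula with the constant of the tame fields** -/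
theorem mtt_of_q1c (hD : D.Valid p) (hr1 : 1 ≤ D.r) (hr : D.r < p) (hP : D.Pairing2 p)
    (hPW : D.PairingW p w) (ha : D.UnitRoot p a) (hIW : D.IntegralW p a) {n : ℕ} (hn : 1 ≤ n)
    {t : ℕ} (ht : D.Adm p t) (htp : ∀ l ∈ t.primeFactors, p ^ n ∣ l - 1)
    (hind : D.Independent p t) (hVW : D.VanishW p a w n t) {c : ℤ_[p]}
    (hc : ∀ m, D.Adm p m → ∀ (G : Type) [CommGroup G] (f : Gp m →* G), IsField m f →
      Lev p n G → D.Q1c p c m f) : D.Q1W p a w c 1 (p ^ (n + 1)) (MonoidHom.id _) := by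
  have hp2 := hD.ne_two
  obtain ⟨n', hn', hES⟩ := hPW.ext t ht
  obtain ⟨θ, hθ⟩ := hIW t ht n
  obtain ⟨θ₁, hθ₁⟩ : ∃ θ₁, D.IsThetaW p a 1 (p ^ (n + 1)) (MonoidHom.id _) θ₁ := by
    have h1 := hIW 1 adm_one n
    rwa [one_mul] at h1
  have hfin : Finite (Gp (p ^ (n + 1))) := finite_Gp (pow_ne_zero _ hp.out.ne_zero)
  have h1 := linkW hD hr1 hr hP hPW ha hn ht htp hind hVW hc hn' hES hθ (Gp (p ^ (n + 1)))
    ((MonoidHom.id _).comp (res (dvd_mul_left _ _))) (lev_Gp n)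
  have h2 := down_allW (w := w) (c := c) (n' := n') hθ₁ ht fun θ' hθ' => by
    have h3 := hθ.push' ((MonoidHom.id (Gp (p ^ (n + 1)))).comp (res (dvd_mul_left _ t)))
    rw [MonoidHom.comp_id] at h3
    rw [hθ'.unique hp2 rfl h3]
    rw [map_sub, push_rhsW, MonoidHom.comp_id] at h1
    exact h1
  exact Q1W.of_mem hPW (e := n + 1) adm_one (by rw [one_mul]) hn'
    (fun j => (hES j).of_dvd (by rw [one_mul]; exact dvd_mul_left _ _)) hθ₁ h2

/-- (V) is necessary -/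
theorem vanishW_of_q1w {c : ℤ_[p]} {n t : ℕ}
    (h : ∀ (G : Type) [CommGroup G] (f : Gp (t * p ^ (n + 1)) →* G), Function.Surjective f →
      Lev p n G → D.Q1W p a w c t (t * p ^ (n + 1)) f) : D.VanishW p a w n t := by
  rintro j hj f hf ⟨n', hn', hES, b, hb, hE⟩
  obtain ⟨θ, hθ, -, hθ'⟩ := h (Cpn p j) f hf (lev_Cpn hj)
  refine ⟨θ, hθ, ?_⟩
  have h1 := hθ' n' hn' hES
  have h2 : D.regW p w n' (t * p ^ (n + 1)) f ∈ augI ℤ_[p] (Cpn p j) ^ (D.r + 1) := by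
    rw [regW_eq]
    refine regB_degenerate hb fun j' => ?_
    have h4 := hE j'
    rw [map_prod] at h4
    simpa only [map_zpow] using h4
  have h3 := Ideal.add_mem _ h1 (Ideal.mul_mem_left _ (algebraMap ℤ_[p] _
    ((1 - Ring.inverse a) ^ 2 * ((-1) ^ t.primeFactors.card *
      (c * ∏ l ∈ t.primeFactors, (nsCard D.W l : ℤ_[p]) * Ring.inverse (l : ℤ_[p]))))) h2)
  rwa [sub_add_cancel] at h3

/-- the constant is determined if the `p`-adic height pairing is nondegenerate -/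
theorem mtt_unique (hD : D.Valid p) (hr1 : 1 ≤ D.r) (hr : D.r < p)
    (ha : D.UnitRoot p a) (hR : D.NondegW p w) {c c' : ℤ_[p]}
    (h : ∀ n, 1 ≤ n → D.Q1W p a w c 1 (p ^ (n + 1)) (MonoidHom.id _))
    (h' : ∀ n, 1 ≤ n → D.Q1W p a w c' 1 (p ^ (n + 1)) (MonoidHom.id _)) : c = c' := by
  have hp2 := hD.ne_two
  by_contra hne
  have hne' : c - c' ≠ 0 := sub_ne_zero.mpr hne
  obtain ⟨n, n', hn', hES, hR⟩ := hR
  obtain ⟨v, U, hU, hu⟩ : ∃ (v : ℕ) (U : ℤ_[p]), IsUnit U ∧ c - c' = U * (p : ℤ_[p]) ^ v :=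
    ⟨_, _, (PadicInt.unitCoeff hne').isUnit, PadicInt.unitCoeff_spec hne'⟩
  apply hR
  have hES1 : ∀ j, D.InES (1 * p) (n' • D.x j) := by
    rw [one_mul]
    exact hES
  have hpow : ∀ k, p ^ (k + 1) ≠ 0 := fun k => pow_ne_zero _ hp.out.ne_zero
  have hfin : ∀ k, Finite (Gp (p ^ (k + 1))) := fun k => finite_Gp (hpow k)
  have key : ∀ k, 1 ≤ k → algebraMap ℤ_[p] _ ((p : ℤ_[p]) ^ v) *
      D.regW p w n' (p ^ (k + 1)) (MonoidHom.id _) ∈ augI ℤ_[p] (Gp (p ^ (k + 1))) ^ (D.r + 1) := by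
    intro k hk
    obtain ⟨θ, h1, -, h2⟩ := h k hk
    obtain ⟨θ', h3, -, h4⟩ := h' k hk
    have := hfin k
    have e := h1.unique hp2 (e := k + 1) (by rw [one_mul]) h3
    subst e
    have h5 := Ideal.sub_mem _ (h4 n' hn' hES1) (h2 n' hn' hES1)
    rw [Nat.primeFactors_one, Finset.card_empty, Finset.prod_empty, pow_zero, one_mul, one_mul,
      mul_one, mul_one] at h5
    have h6 : algebraMap ℤ_[p] (MonoidAlgebra ℤ_[p] (Gp (p ^ (k + 1))))
        ((1 - Ring.inverse a) ^ 2 * U) *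
        (algebraMap ℤ_[p] _ ((p : ℤ_[p]) ^ v) * D.regW p w n' (p ^ (k + 1)) (MonoidHom.id _)) ∈
          augI ℤ_[p] (Gp (p ^ (k + 1))) ^ (D.r + 1) := by
      convert h5 using 1
      have h7 : c = c' + U * (p : ℤ_[p]) ^ v := by
        rw [← hu]
        ring
      rw [h7]
      simp only [map_mul, map_add]
      ring
    refine (Ideal.unit_mul_mem_iff_mem _ ?_).1 h6
    exact ((one_sub_inv_unit hD ha).pow 2 |>.mul hU).map _
  have hd : p ^ (n + 1) ∣ p ^ (n + (v + 1) + 1) := pow_dvd_pow p (by omega)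
  have h1 := key (n + (v + 1)) (by omega)
  have h2 : algebraMap ℤ_[p] _ ((p : ℤ_[p]) ^ (v + 1)) *
      D.regW p w n' (p ^ (n + (v + 1) + 1)) (MonoidHom.id _) ∈
        augI ℤ_[p] (Gp (p ^ (n + (v + 1) + 1))) ^ (D.r + 1) := by
    have h3 := Ideal.mul_mem_left _ (algebraMap ℤ_[p] _ (p : ℤ_[p])) h1
    convert h3 using 1
    rw [pow_succ (p : ℤ_[p]) v, map_mul]
    ring
  have h3 := level_drop hp2 hr1 hr (by rw [regW_eq]; exact regB_mem _ _) h2 hd
  rw [push_regW] at h3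
  have h4 : (res hd).comp (MonoidHom.id _) = (MonoidHom.id (Gp (p ^ (n + 1)))).comp (res hd) :=
    rfl
  rw [h4, regW_res (m := 1) (e := n + (v + 1) + 1) (by rw [one_mul]) squarefree_one
    (Nat.coprime_one_right _) (m' := 1) (e' := n + 1) (by rw [one_mul]) squarefree_one
    (Nat.coprime_one_right _) hd] at h3
  exact h3

/-- **The main theorem.** -/
theorem mainCY (hD : D.Valid p) (hr1 : 1 ≤ D.r) (hr : D.r < p)
    (hI : ∀ m, D.Adm p m → D.Integral p m) (hP : D.Pairing2 p) (ha : D.UnitRoot p a)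
    (hIW : D.IntegralW p a) (hPW : D.PairingW p w) (t : ℕ → ℕ)
    (ht : ∀ n, 1 ≤ n → D.Adm p (t n) ∧ (∀ l ∈ (t n).primeFactors, p ^ n ∣ l - 1) ∧
      D.Independent p (t n)) :
    ((∀ n, 1 ≤ n → D.Vanish p n (t n) ∧ D.VanishW p a w n (t n)) ↔ ∃ c : ℤ_[p],
      (∀ m, D.Adm p m → ∀ (G : Type) [CommGroup G] (f : Gp m →* G), IsField m f →
        D.Q1c p c m f) ∧
      (∀ n, 1 ≤ n → ∀ (G : Type) [CommGroup G] (f : Gp (t n * p ^ (n + 1)) →* G),
        Function.Surjective f → Lev p n G → D.Q1W p a w c (t n) (t n * p ^ (n + 1)) f) ∧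
      ∀ n, 1 ≤ n → D.Q1W p a w c 1 (p ^ (n + 1)) (MonoidHom.id _)) ∧
    ((∀ n, 1 ≤ n → D.VanishW p a w n (t n)) → D.NondegW p w →
      ((∀ m, D.Adm p m → ∀ (G : Type) [CommGroup G] (f : Gp m →* G), IsField m f →
        D.Q1 p m f) ↔
      (∀ n, 1 ≤ n → D.Vanish p n (t n)) ∧
        ∀ n, 1 ≤ n → D.Q1W p a w (D.Lalg p 1) 1 (p ^ (n + 1)) (MonoidHom.id _))) := by
  have hA : (∀ n, 1 ≤ n → D.Vanish p n (t n) ∧ D.VanishW p a w n (t n)) → ∃ c : ℤ_[p],
      (∀ m, D.Adm p m → ∀ (G : Type) [CommGroup G] (f : Gp m →* G), IsField m f →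
        D.Q1c p c m f) := by
    intro hV
    obtain ⟨c, hc⟩ := main_const hD hr1 hr hI hP {n | 1 ≤ n} t
      (fun n hn => ⟨hn, ht n hn⟩) (fun n hn => (hV n hn).1)
    refine ⟨c, fun m hm G _ f hf => ?_⟩
    have := finite_Gp hm.1.ne_zero
    have := Finite.of_surjective f hf.1
    obtain ⟨n, hn, hG⟩ := exists_lev (p := p) G
    exact hc n hn m hm G f hf hG
  have hB : (∀ n, 1 ≤ n → D.Vanish p n (t n) ∧ D.VanishW p a w n (t n)) → ∀ c : ℤ_[p],
      (∀ m, D.Adm p m → ∀ (G : Type) [CommGroup G] (f : Gp m →* G), IsField m f →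
        D.Q1c p c m f) → ∀ n, 1 ≤ n → D.Q1W p a w c 1 (p ^ (n + 1)) (MonoidHom.id _) := by
    intro hV c hc n hn
    obtain ⟨h1, h2, h3⟩ := ht n hn
    exact mtt_of_q1c hD hr1 hr hP hPW ha hIW hn h1 h2 h3 (hV n hn).2
      fun m hm G _ f hf _ => hc m hm G f hf
  refine ⟨⟨fun hV => ?_, ?_⟩, fun hVW hR => ⟨fun hQ => ?_, fun ⟨hV', hM⟩ => ?_⟩⟩
  · obtain ⟨c, hc⟩ := hA hV
    refine ⟨c, hc, fun n hn G _ f hf hG => ?_, hB hV c hc⟩
    obtain ⟨h1, h2, h3⟩ := ht n hn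
    exact q1w_of_q1c hD hr1 hr hP hPW ha hIW hn h1 h2 h3 (hV n hn).2
      (fun m hm G _ f hf _ => hc m hm G f hf) G hf hG
  · rintro ⟨c, hc, hc', -⟩ n hn
    exact ⟨vanish_of_q1c (fun m hm G _ f hf _ => hc m hm G f hf) (t n),
      vanishW_of_q1w (hc' n hn)⟩
  · have hQ' : ∀ m, D.Adm p m → ∀ (G : Type) [CommGroup G] (f : Gp m →* G), IsField m f →
        D.Q1c p (D.Lalg p 1) m f := fun m hm G _ f hf => (q1_iff hm f).mp (hQ m hm G f hf)
    have hV' : ∀ n, 1 ≤ n → D.Vanish p n (t n) := fun n _ =>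
      vanish_of_q1c (fun m hm G _ f hf _ => hQ' m hm G f hf) (t n)
    exact ⟨hV', hB (fun n hn => ⟨hV' n hn, hVW n hn⟩) _ hQ'⟩
  · have hV := fun n hn => (⟨hV' n hn, hVW n hn⟩ : D.Vanish p n (t n) ∧ D.VanishW p a w n (t n))
    obtain ⟨c, hc⟩ := hA hV
    have h1 := mtt_unique hD hr1 hr ha hR (hB hV c hc) hM
    intro m hm G _ f hf
    rw [q1_iff hm f, ← h1]
    exact hc m hm G f hf

end MTData

end MTate
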