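import Mathlib
import Pool.Agent.Lib.MP_5deabe_nt_CY.FinalCY

/-!
# Descent presentations
-/

namespace MTate

open MonoidAlgebra

theorem det_blocks_sub_mem {R : Type*} [CommRing R] (I : Ideal R) {r s : ℕ}
    (H : Matrix (Fin r) (Fin r) R) (B : Matrix (Fin r) (Fin s) R) (B' : Matrix (Fin s) (Fin r) R)
    (C : Matrix (Fin s) (Fin s) R) (hH : ∀ i j, H i j ∈ I) (hB : ∀ i j, B i j ∈ I)
    (hB' : ∀ i j, B' i j ∈ I) :
    (Matrix.fromBlocks H B B' C).det - H.det * C.det ∈ I ^ (r + 1) := by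
  classical
  rw [← Matrix.det_fromBlocks_zero₁₂ H B' C, Matrix.det_apply', Matrix.det_apply',
    ← Finset.sum_sub_distrib]
  refine Ideal.sum_mem _ fun σ _ => ?_
  rw [← mul_sub]
  refine Ideal.mul_mem_left _ _ ?_
  rw [Fintype.prod_sum_type, Fintype.prod_sum_type]
  have h1 : ∏ i : Fin r, Matrix.fromBlocks H B B' C (σ (Sum.inl i)) (Sum.inl i) =
      ∏ i : Fin r, Matrix.fromBlocks H 0 B' C (σ (Sum.inl i)) (Sum.inl i) := by
    refine Finset.prod_congr rfl fun i _ => ?_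
    rcases σ (Sum.inl i) with k | k <;> rfl
  have h2 : ∏ i : Fin r, Matrix.fromBlocks H 0 B' C (σ (Sum.inl i)) (Sum.inl i) ∈ I ^ r := by
    have := Ideal.prod_mem_prod (s := Finset.univ) (I := fun _ : Fin r => I)
      (x := fun i : Fin r => Matrix.fromBlocks H 0 B' C (σ (Sum.inl i)) (Sum.inl i)) fun i _ => by
        rcases σ (Sum.inl i) with k | k
        · exact hH k i
        · exact hB' k i
    simpa using this
  rw [h1, ← mul_sub, pow_succ]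
  refine Ideal.mul_mem_mul h2 ?_
  by_cases h : ∃ k i, σ (Sum.inr k) = Sum.inl i
  · obtain ⟨k, i, hk⟩ := h
    refine Ideal.sub_mem _ ?_ ?_
    · rw [← Finset.mul_prod_erase _ _ (Finset.mem_univ k), hk]
      exact Ideal.mul_mem_right _ _ (hB i k)
    · rw [← Finset.mul_prod_erase _ _ (Finset.mem_univ k), hk, Matrix.fromBlocks_apply₁₂]
      simp
  · have h3 : ∏ k : Fin s, Matrix.fromBlocks H B B' C (σ (Sum.inr k)) (Sum.inr k) =
        ∏ k : Fin s, Matrix.fromBlocks H 0 B' C (σ (Sum.inr k)) (Sum.inr k) := by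
      refine Finset.prod_congr rfl fun k _ => ?_
      push Not at h
      rcases hσ : σ (Sum.inr k) with i | k'
      · exact absurd hσ (h k i)
      · rfl
    rw [h3, sub_self]
    exact zero_mem _

/-- **descent presentation** of `θ ∈ ℤ_p[G]` over the heights `h i j = n⁻¹ (β i j - 1)`: there is a
square matrix with the blocks `H`, `B`, `B'`, `C` over `ℤ_p[G]` such that `H ≡ h` modulo `I²`, the
entries of `B`, `B'` lie in `I`, and `θ` lies in the ideal generated by its determinant -/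
def DescPres (p : ℕ) [Fact p.Prime] {r : ℕ} {G : Type*} [CommGroup G] (θ : MonoidAlgebra ℤ_[p] G)
    (n : ℕ) (β : Fin r → Fin r → G) : Prop :=
  ∃ (s : ℕ) (H : Matrix (Fin r) (Fin r) (MonoidAlgebra ℤ_[p] G))
    (B : Matrix (Fin r) (Fin s) (MonoidAlgebra ℤ_[p] G))
    (B' : Matrix (Fin s) (Fin r) (MonoidAlgebra ℤ_[p] G))
    (C : Matrix (Fin s) (Fin s) (MonoidAlgebra ℤ_[p] G)),
    (∀ i j, H i j - algebraMap ℤ_[p] (MonoidAlgebra ℤ_[p] G) (Ring.inverse (n : ℤ_[p])) *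
      (of ℤ_[p] G (β i j) - 1) ∈ augI ℤ_[p] G ^ 2) ∧
    (∀ i j, B i j ∈ augI ℤ_[p] G) ∧ (∀ i j, B' i j ∈ augI ℤ_[p] G) ∧
    θ ∈ Ideal.span {(Matrix.fromBlocks H B B' C).det}

variable {p : ℕ} [hp : Fact p.Prime] {D : MTData}

theorem DescPres.exists {r : ℕ} {G : Type*} [CommGroup G] {θ : MonoidAlgebra ℤ_[p] G} {n : ℕ}
    {β : Fin r → Fin r → G} (h : DescPres p θ n β) :
    ∃ x : MonoidAlgebra ℤ_[p] G, θ - x * regB p n β ∈ augI ℤ_[p] G ^ (r + 1) := by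
  obtain ⟨s, H, B, B', C, hH, hB, hB', hθ⟩ := h
  obtain ⟨y, rfl⟩ := Ideal.mem_span_singleton'.1 hθ
  have e1 : ∀ i j, algebraMap ℤ_[p] (MonoidAlgebra ℤ_[p] G) (Ring.inverse (n : ℤ_[p])) *
      (of ℤ_[p] G (β i j) - 1) ∈ augI ℤ_[p] G := fun i j =>
    Ideal.mul_mem_left _ _ (of_sub_one_mem _)
  have hH' : ∀ i j, H i j ∈ augI ℤ_[p] G := fun i j => by
    have h1 := Ideal.add_mem _ (Ideal.pow_le_self two_ne_zero (hH i j)) (e1 i j)
    rwa [sub_add_cancel] at h1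
  have h1 := det_blocks_sub_mem (augI ℤ_[p] G) H B B' C hH' hB hB'
  have h2 := (MTData.det_cong (I := augI ℤ_[p] G) H (Matrix.of fun i j =>
    algebraMap ℤ_[p] (MonoidAlgebra ℤ_[p] G) (Ring.inverse (n : ℤ_[p])) *
      (of ℤ_[p] G (β i j) - 1)) fun i j => ⟨by rw [pow_one]; exact hH' i j, hH i j⟩).2
  refine ⟨y * C.det, ?_⟩
  have h3 := Ideal.add_mem _ (Ideal.mul_mem_left _ y h1) (Ideal.mul_mem_left _ (y * C.det) h2)
  unfold regB
  convert h3 using 1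
  ring

theorem DescPres.mem {r : ℕ} {G : Type*} [CommGroup G] {θ : MonoidAlgebra ℤ_[p] G} {n : ℕ}
    {β : Fin r → Fin r → G} (h : DescPres p θ n β) {a : Fin r → ℤ}
    (ha : ∃ i, ¬ (p : ℤ) ∣ a i) (hβ : ∀ j, ∏ i, β i j ^ a i = 1) :
    θ ∈ augI ℤ_[p] G ^ (r + 1) := by
  obtain ⟨x, hx⟩ := h.exists
  have h1 := Ideal.add_mem _ hx (Ideal.mul_mem_left _ x (regB_degenerate (n := n) ha hβ))
  rwa [sub_add_cancel] at h1

namespace MTData

variable (D) (p)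

/-- the weak main conjecture with descent for the real abelian fields of `p`-power degree whose
conductor satisfies (i)-(iii) -/
def WMC : Prop :=
  ∀ m, D.Adm p m → ∀ (j : ℕ) (f : Gp m →* Cpn p j), IsField m f →
    ∃ θ, D.IsTheta p m f θ ∧ ∀ n : ℕ, p.Coprime n → (∀ j, D.InES m (n • D.x j)) →
      DescPres p θ n fun i j => f (D.pair m (D.x i) (n • D.x j))

/-- the same for the fields in `ℚ(ζ_{t p^{n+1}})⁺` -/
def WMCW (a : ℤ_[p]) (w : EQ D.W → EQ D.W → ℤ_[p]ˣ) (n t : ℕ) : Prop :=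
  ∀ j ≤ n, ∀ f : Gp (t * p ^ (n + 1)) →* Cpn p j, Function.Surjective f →
    ∃ θ, D.IsThetaW p a t (t * p ^ (n + 1)) f θ ∧
      ∀ n' : ℕ, p.Coprime n' → (∀ j, D.InES (t * p) (n' • D.x j)) →
        DescPres p θ n' fun i j => f (D.pairW p w (t * p ^ (n + 1)) (D.x i) (n' • D.x j))

variable {D} {p}

theorem WMC.vanish (h : D.WMC p) (n t : ℕ) : D.Vanish p n t := by
  intro m hm _ j _ f hf hdeg
  obtain ⟨θ, hθ, hd⟩ := h m hm j f hf
  obtain ⟨n', hn', hES, b, hb, hE⟩ := hdeg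
  refine ⟨θ, hθ, (hd n' hn' hES).mem hb fun j' => ?_⟩
  have h4 := hE j'
  rw [map_prod] at h4
  simpa only [map_zpow] using h4

theorem WMCW.vanishW {a : ℤ_[p]} {w : EQ D.W → EQ D.W → ℤ_[p]ˣ} {n t : ℕ}
    (h : D.WMCW p a w n t) : D.VanishW p a w n t := by
  intro j hj f hf hdeg
  obtain ⟨θ, hθ, hd⟩ := h j hj f hf
  obtain ⟨n', hn', hES, b, hb, hE⟩ := hdeg
  refine ⟨θ, hθ, (hd n' hn' hES).mem hb fun j' => ?_⟩
  have h4 := hE j'
  rw [map_prod] at h4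
  simpa only [map_zpow] using h4

/-- **The main theorem.** -/
theorem mainDesc (hD : D.Valid p) (hr1 : 1 ≤ D.r) (hr : D.r < p)
    (hI : ∀ m, D.Adm p m → D.Integral p m) (hP : D.Pairing2 p) {a : ℤ_[p]} (ha : D.UnitRoot p a)
    {w : EQ D.W → EQ D.W → ℤ_[p]ˣ} (hIW : D.IntegralW p a) (hPW : D.PairingW p w) (t : ℕ → ℕ)
    (ht : ∀ n, 1 ≤ n → D.Adm p (t n) ∧ (∀ l ∈ (t n).primeFactors, p ^ n ∣ l - 1) ∧
      D.Independent p (t n)) (hK : D.WMC p) (hKW : ∀ n, 1 ≤ n → D.WMCW p a w n (t n)) :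
    (∃ c : ℤ_[p],
      (∀ m, D.Adm p m → ∀ (G : Type) [CommGroup G] (f : Gp m →* G), IsField m f →
        D.Q1c p c m f) ∧
      ∀ n, 1 ≤ n → D.Q1W p a w c 1 (p ^ (n + 1)) (MonoidHom.id _)) ∧
    (D.NondegW p w →
      ((∀ m, D.Adm p m → ∀ (G : Type) [CommGroup G] (f : Gp m →* G), IsField m f →
        D.Q1 p m f) ↔
      ∀ n, 1 ≤ n → D.Q1W p a w (D.Lalg p 1) 1 (p ^ (n + 1)) (MonoidHom.id _))) := by
  obtain ⟨h1, h2⟩ := mainCY hD hr1 hr hI hP ha hIW hPW t ht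
  have hV : ∀ n, 1 ≤ n → D.Vanish p n (t n) := fun n _ => hK.vanish n (t n)
  have hVW : ∀ n, 1 ≤ n → D.VanishW p a w n (t n) := fun n hn => (hKW n hn).vanishW
  refine ⟨?_, fun hR => ?_⟩
  · obtain ⟨c, hc, -, hc'⟩ := h1.mp fun n hn => ⟨hV n hn, hVW n hn⟩
    exact ⟨c, hc, hc'⟩
  · rw [h2 hVW hR]
    exact ⟨fun h => h.2, fun h => ⟨hV, h⟩⟩

end MTData

end MTate
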