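import Mathlib
import Pool.Agent.Lib.MP_5deabe_nt_CY.Desc

/-!
# The main conjecture for tame fields and the constant
-/

namespace MTate

open MonoidAlgebra

/-- **the main conjecture with descent** for `θ ∈ ℤ_p[G]` over the heights `h i j = n⁻¹ (β i j - 1)`:
there is a square matrix with the blocks `H`, `B`, `B'`, `C` over `ℤ_p[G]` such that `H ≡ h` modulo
`I²`, the entries of `B`, `B'` lie in `I`, `C` modulo `I` has the determinant `s₀` (the order of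
`Ш(E/ℚ)`) up to a unit, and `θ` is its determinant up to a unit -/
def DescEq (p : ℕ) [Fact p.Prime] {r : ℕ} {G : Type*} [CommGroup G] (θ : MonoidAlgebra ℤ_[p] G)
    (n : ℕ) (β : Fin r → Fin r → G) (s₀ : ℕ) : Prop :=
  ∃ (s : ℕ) (H : Matrix (Fin r) (Fin r) (MonoidAlgebra ℤ_[p] G))
    (B : Matrix (Fin r) (Fin s) (MonoidAlgebra ℤ_[p] G))
    (B' : Matrix (Fin s) (Fin r) (MonoidAlgebra ℤ_[p] G))
    (C : Matrix (Fin s) (Fin s) (MonoidAlgebra ℤ_[p] G)),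
    (∀ i j, H i j - algebraMap ℤ_[p] (MonoidAlgebra ℤ_[p] G) (Ring.inverse (n : ℤ_[p])) *
      (of ℤ_[p] G (β i j) - 1) ∈ augI ℤ_[p] G ^ 2) ∧
    (∀ i j, B i j ∈ augI ℤ_[p] G) ∧ (∀ i j, B' i j ∈ augI ℤ_[p] G) ∧
    Associated (eps ℤ_[p] G C.det) (s₀ : ℤ_[p]) ∧
    Associated (Matrix.fromBlocks H B B' C).det θ

variable {p : ℕ} [hp : Fact p.Prime] {D : MTData}

theorem DescEq.descPres {r : ℕ} {G : Type*} [CommGroup G] {θ : MonoidAlgebra ℤ_[p] G} {n : ℕ}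
    {β : Fin r → Fin r → G} {s₀ : ℕ} (h : DescEq p θ n β s₀) : DescPres p θ n β := by
  obtain ⟨s, H, B, B', C, hH, hB, hB', -, hθ⟩ := h
  exact ⟨s, H, B, B', C, hH, hB, hB', Ideal.mem_span_singleton.2 hθ.dvd⟩

theorem DescEq.exists {r : ℕ} {G : Type*} [CommGroup G] {θ : MonoidAlgebra ℤ_[p] G} {n : ℕ}
    {β : Fin r → Fin r → G} {s₀ : ℕ} (h : DescEq p θ n β s₀) :
    ∃ c : ℤ_[p], Associated c (s₀ : ℤ_[p]) ∧
      θ - algebraMap ℤ_[p] _ c * regB p n β ∈ augI ℤ_[p] G ^ (r + 1) := by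
  obtain ⟨s, H, B, B', C, hH, hB, hB', hs, ⟨y, rfl⟩⟩ := h
  have e1 : ∀ i j, algebraMap ℤ_[p] (MonoidAlgebra ℤ_[p] G) (Ring.inverse (n : ℤ_[p])) *
      (of ℤ_[p] G (β i j) - 1) ∈ augI ℤ_[p] G := fun i j =>
    Ideal.mul_mem_left _ _ (of_sub_one_mem _)
  have hH' : ∀ i j, H i j ∈ augI ℤ_[p] G := fun i j => by
    have h1 := Ideal.add_mem _ (Ideal.pow_le_self two_ne_zero (hH i j)) (e1 i j)
    rwa [sub_add_cancel] at h1
  have h1 := det_blocks_sub_mem (augI ℤ_[p] G) H B B' C hH' hB hB'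
  have h2 := (MTData.det_cong (I := augI ℤ_[p] G) H (Matrix.of fun i j =>
    algebraMap ℤ_[p] (MonoidAlgebra ℤ_[p] G) (Ring.inverse (n : ℤ_[p])) *
      (of ℤ_[p] G (β i j) - 1)) fun i j => ⟨by rw [pow_one]; exact hH' i j, hH i j⟩).2
  refine ⟨eps ℤ_[p] G (C.det * y), ?_, ?_⟩
  · rw [map_mul]
    have h3 : IsUnit (eps ℤ_[p] G (y : MonoidAlgebra ℤ_[p] G)) := y.isUnit.map _
    exact (associated_mul_unit_left _ _ h3).trans hs
  · have h3 := Ideal.add_mem _ (Ideal.mul_mem_left _ (y : MonoidAlgebra ℤ_[p] G) h1)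
      (Ideal.mul_mem_left _ (y * C.det) h2)
    have h4 : (C.det * y - algebraMap ℤ_[p] _ (eps ℤ_[p] G (C.det * y))) * regB p n β ∈
        augI ℤ_[p] G ^ (r + 1) := by
      rw [pow_succ']
      exact Ideal.mul_mem_mul (sub_eps_mem _) (regB_mem _ _)
    have h5 := Ideal.add_mem _ h3 h4
    unfold regB at h5 ⊢
    convert h5 using 1
    ring

namespace MTData

theorem reg_eq (n m : ℕ) {G : Type*} [CommGroup G] (f : Gp m →* G) :
    D.reg p n m f = regB p n fun i j => f (D.pair m (D.x i) (n • D.x j)) := by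
  unfold reg regB
  congr 1
  ext1 i j
  rw [Matrix.of_apply, Matrix.of_apply]
  unfold height
  rw [map_mul, AlgHom.commutes, map_sub, push_of, map_one]

theorem reg_change (hP : D.Pairing2 p) {m n n' : ℕ} (hm : D.Adm p m)
    (hn : p.Coprime n) (hn' : p.Coprime n')
    (hES : ∀ j, D.InES m (n • D.x j)) (hES' : ∀ j, D.InES m (n' • D.x j))
    {G : Type*} [CommGroup G] (f : Gp m →* G) :
    D.reg p n m f - D.reg p n' m f ∈ augI ℤ_[p] G ^ (D.r + 1) := by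
  rw [reg_eq, reg_eq]
  refine regB_change hn hn' fun i j => ?_
  rw [← map_pow, ← map_pow, pair_change hP hm hES hES']

theorem unit_v {m : ℕ} (hm : D.Adm p m) : IsUnit (∏ l ∈ m.primeFactors,
    (nsCard D.W l : ℤ_[p]) * Ring.inverse (l : ℤ_[p])) := by
  rw [IsUnit.prod_iff]
  intro l hl
  refine IsUnit.mul (isUnit_cast (hm.2.2.2 l hl)) (IsUnit.ringInverse (isUnit_cast ?_))
  exact Nat.Coprime.coprime_dvd_right (Nat.dvd_of_mem_primeFactors hl) hm.2.2.1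

/-- `𝓛 = #Ш` up to a unit -/
theorem assoc_Lalg (hD : D.Valid p) : Associated (D.sha : ℤ_[p]) (D.Lalg p 1) := by
  have hg := hD.good
  have h1 : IsUnit ((tam D.W D.N : ℕ) : ℤ_[p]) := isUnit_cast
    (hg.coprime_dvd_right ((dvd_mul_left _ _).mul_right _))
  have h2 : IsUnit ((tors D.W : ℕ) : ℤ_[p]) := isUnit_cast
    (hg.coprime_dvd_right (((dvd_mul_left _ _).mul_right _).mul_right _))
  have h3 : IsUnit (∏ l ∈ (1 * D.N).primeFactors, (nsCard D.W l : ℤ_[p]) *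
      Ring.inverse (l : ℤ_[p])) := by
    rw [one_mul, IsUnit.prod_iff]
    intro l hl
    have hpN : p * D.N ≠ 0 := mul_ne_zero hp.out.ne_zero (Nat.mem_primeFactors.1 hl).2.2
    refine IsUnit.mul (isUnit_cast ?_) (IsUnit.ringInverse (isUnit_cast ?_))
    · refine hg.coprime_dvd_right ((Finset.dvd_prod_of_mem _ ?_).mul_left _)
      exact Nat.primeFactors_mono (dvd_mul_left _ _) hpN hl
    · refine hg.coprime_dvd_right ?_
      exact ((((Nat.dvd_of_mem_primeFactors hl).mul_left 6).mul_right _).mul_right _).mul_right _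
  unfold Lalg
  rw [mul_assoc, mul_assoc]
  exact (associated_mul_unit_left _ _ (h1.mul ((h2.pow 2).ringInverse.mul h3))).symm

/-- the constant in a field with perfect pairing -/
theorem const_of_descEq (hr : D.r < p) (hP : D.Pairing2 p) {m n : ℕ} (hm : D.Adm p m)
    (hn : 1 ≤ n) {f : Gp m →* Cpn p n} (h : D.Perfect p m f) {c : ℤ_[p]}
    (hc : D.Q1c p c m f) {s₀ : ℕ} (hs₀ : ¬ p ^ n ∣ s₀) (hd : ∃ θ, D.IsTheta p m f θ ∧
      ∀ n' : ℕ, p.Coprime n' → (∀ j, D.InES m (n' • D.x j)) →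
        DescEq p θ n' (fun i j => f (D.pair m (D.x i) (n' • D.x j))) s₀) :
    Associated c (s₀ : ℤ_[p]) := by
  obtain ⟨θ, hθ, hd⟩ := hd
  obtain ⟨n', hn', hES⟩ := hP.ext m hm
  obtain ⟨e, he, h1⟩ := (hd n' hn' hES).exists
  rw [← reg_eq] at h1
  have hv := unit_v (D := D) (p := p) hm
  have hu : IsUnit ((-1 : ℤ_[p]) ^ m.primeFactors.card *
      ∏ l ∈ m.primeFactors, (nsCard D.W l : ℤ_[p]) * Ring.inverse (l : ℤ_[p])) :=
    ((isUnit_one.neg).pow _).mul hv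
  obtain ⟨u, hu⟩ := hu
  have hc' : D.Q1c p (e * ↑u⁻¹) m f := by
    have e1 : (-1 : ℤ_[p]) ^ m.primeFactors.card * (e * ↑u⁻¹ *
        ∏ l ∈ m.primeFactors, (nsCard D.W l : ℤ_[p]) * Ring.inverse (l : ℤ_[p])) = e := by
      have : (-1 : ℤ_[p]) ^ m.primeFactors.card * (e * ↑u⁻¹ *
        ∏ l ∈ m.primeFactors, (nsCard D.W l : ℤ_[p]) * Ring.inverse (l : ℤ_[p])) =
          e * ↑u⁻¹ * ((-1 : ℤ_[p]) ^ m.primeFactors.card *
            ∏ l ∈ m.primeFactors, (nsCard D.W l : ℤ_[p]) * Ring.inverse (l : ℤ_[p])) := by ring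
      rw [this, ← hu, mul_assoc, Units.inv_mul, mul_one]
    refine ⟨θ, hθ, ?_, fun n'' hn'' hES'' => ?_⟩
    · have h2 : D.reg p n' m f ∈ augI ℤ_[p] (Cpn p n) ^ D.r := by
        rw [reg_eq]
        exact regB_mem _ _
      have h3 := Ideal.add_mem _ (Ideal.pow_le_pow_right (Nat.le_succ D.r) h1)
        (Ideal.mul_mem_left _ (algebraMap ℤ_[p] _ e) h2)
      rwa [sub_add_cancel] at h3
    · rw [e1]
      have h2 := reg_change hP hm hn' hn'' hES hES'' f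
      have h3 := Ideal.add_mem _ h1 (Ideal.mul_mem_left _ (algebraMap ℤ_[p] _ e) h2)
      convert h3 using 1
      ring
  have h2 := const_unique hr hP hm hn h hc' hc
  -- `p ^ n ∣ c - e u⁻¹`, `e u⁻¹` is `s₀` up to a unit and `s₀` is not divisible by `p ^ n`
  have h3 : Associated (e * ↑u⁻¹) (s₀ : ℤ_[p]) :=
    (associated_mul_unit_left _ _ (u⁻¹).isUnit).trans he
  have hp0 : ¬ (p : ℤ_[p]) ^ n ∣ (s₀ : ℤ_[p]) := by
    intro h4
    apply hs₀
    have h5 : ‖((s₀ : ℤ) : ℤ_[p])‖ ≤ (p : ℝ) ^ (-(n : ℤ)) := by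
      rw [PadicInt.norm_le_pow_iff_mem_span_pow, Ideal.mem_span_singleton]
      exact_mod_cast h4
    rw [PadicInt.norm_int_le_pow_iff_dvd] at h5
    exact_mod_cast h5
  refine Associated.trans ?_ h3
  obtain ⟨k, hk⟩ := h2
  have he0 : ¬ (p : ℤ_[p]) ^ n ∣ e * ↑u⁻¹ := fun h4 => hp0 (h4.trans h3.dvd)
  have hne : e * ↑u⁻¹ ≠ 0 := fun h4 => he0 (h4 ▸ dvd_zero _)
  obtain ⟨v, U, hU, hu'⟩ : ∃ (v : ℕ) (U : ℤ_[p]), IsUnit U ∧ e * ↑u⁻¹ = U * (p : ℤ_[p]) ^ v :=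
    ⟨_, _, (PadicInt.unitCoeff hne).isUnit, PadicInt.unitCoeff_spec hne⟩
  have hvn : v < n := by
    by_contra h4
    push Not at h4
    apply he0
    rw [hu']
    exact (pow_dvd_pow _ h4).mul_left _
  have h6 : c = (U + (p : ℤ_[p]) ^ (n - v) * k) * (p : ℤ_[p]) ^ v := by
    have h7 : (p : ℤ_[p]) ^ n = (p : ℤ_[p]) ^ (n - v) * (p : ℤ_[p]) ^ v := by
      rw [← pow_add, Nat.sub_add_cancel hvn.le]
    rw [h7] at hk
    linear_combination hk + hu'
  have h7 : IsUnit (U + (p : ℤ_[p]) ^ (n - v) * k) := by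
    by_contra h8
    have h9 : ¬ IsUnit ((p : ℤ_[p]) ^ (n - v) * k) := by
      intro h10
      have h11 := isUnit_of_mul_isUnit_left h10
      have h12 := (isUnit_pow_iff (by omega)).1 h11
      exact PadicInt.prime_p.not_isUnit h12
    have h10 := IsLocalRing.nonunits_add (a := U + (p : ℤ_[p]) ^ (n - v) * k)
      (b := -((p : ℤ_[p]) ^ (n - v) * k)) h8 (by
        rw [mem_nonunits_iff, IsUnit.neg_iff]
        exact h9)
    rw [add_neg_cancel_right] at h10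
    exact h10 hU
  rw [h6, hu']
  exact (associated_unit_mul_left _ _ h7).trans (associated_unit_mul_left _ _ hU).symm

variable (D p) in
/-- **the main conjecture** for the real abelian fields `F` of `p`-power degree whose conductor
satisfies (i)-(iii): `θ_F` generates the Fitting ideal of the Selmer group, which has a
presentation as in `DescEq` -/
def MC : Prop :=
  ∀ m, D.Adm p m → ∀ (j : ℕ) (f : Gp m →* Cpn p j), IsField m f →
    ∃ θ, D.IsTheta p m f θ ∧ ∀ n : ℕ, p.Coprime n → (∀ j, D.InES m (n • D.x j)) →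
      DescEq p θ n (fun i j => f (D.pair m (D.x i) (n • D.x j))) D.sha

theorem MC.wmc (h : D.MC p) : D.WMC p := by
  intro m hm j f hf
  obtain ⟨θ, hθ, hd⟩ := h m hm j f hf
  exact ⟨θ, hθ, fun n hn hES => (hd n hn hES).descPres⟩

/-- **Q1 up to one unit.** -/
theorem mainUnit (hD : D.Valid p) (hr1 : 1 ≤ D.r) (hr : D.r < p)
    (hI : ∀ m, D.Adm p m → D.Integral p m) (hP : D.Pairing2 p) (t : ℕ → ℕ)
    (ht : ∀ n, 1 ≤ n → D.Adm p (t n) ∧ (∀ l ∈ (t n).primeFactors, p ^ n ∣ l - 1) ∧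
      D.Independent p (t n)) (hK : D.MC p) (hsha : D.sha ≠ 0) :
    ∃ u : ℤ_[p], IsUnit u ∧ ∀ m, D.Adm p m → ∀ (G : Type) [CommGroup G] (f : Gp m →* G),
      IsField m f → D.Q1c p (u * D.Lalg p 1) m f := by
  obtain ⟨c, hc⟩ := main_const hD hr1 hr hI hP {n | 1 ≤ n} t
    (fun n hn => ⟨hn, ht n hn⟩) (fun n hn => hK.wmc.vanish n (t n))
  -- a large `n`
  obtain ⟨n, hn, hns⟩ : ∃ n, 1 ≤ n ∧ ¬ p ^ n ∣ D.sha := by
    refine ⟨D.sha + 1, by omega, fun h => ?_⟩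
    have h1 := Nat.le_of_dvd (Nat.pos_of_ne_zero hsha) h
    have h2 : D.sha + 1 < p ^ (D.sha + 1) := Nat.lt_pow_self hp.out.one_lt
    omega
  obtain ⟨h1, h2, h3⟩ := ht n hn
  obtain ⟨n', hn', hES⟩ := hP.ext (t n) h1
  obtain ⟨d, f, hd, hf, hperf, -⟩ := exists_perfect hD hr1 hP hn h1 h2 h3 hn' hES
  have h4 := const_of_descEq hr hP (h1.of_dvd hd) hn hperf
    (hc n hn d (h1.of_dvd hd) _ f hf (lev_Cpn le_rfl)) hns (hK d (h1.of_dvd hd) n f hf)
  obtain ⟨u, hu⟩ := (h4.trans (assoc_Lalg hD)).symm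
  refine ⟨u, u.isUnit, fun m hm G _ f hf => ?_⟩
  have := finite_Gp hm.1.ne_zero
  have := Finite.of_surjective f hf.1
  obtain ⟨n, hn, hG⟩ := exists_lev (p := p) G
  rw [mul_comm, hu]
  exact hc n hn m hm G f hf hG

variable (D p) in
/-- the main conjecture for one field: for one cyclic field `F` of degree `p ^ n` (of a conductor
which satisfies (i)-(iii)), `p ^ n` not a divisor of `#Ш`, whose height pairing is nondegenerate
modulo `p`, `θ_F` generates the Fitting ideal of the Selmer group, which has a presentation as in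
`DescEq` -/
def MCOne : Prop :=
  ∃ (n m : ℕ) (f : Gp m →* Cpn p n), 1 ≤ n ∧ ¬ p ^ n ∣ D.sha ∧ D.Adm p m ∧ IsField m f ∧
    D.Perfect p m f ∧ ∃ θ, D.IsTheta p m f θ ∧ ∀ n' : ℕ, p.Coprime n' →
      (∀ j, D.InES m (n' • D.x j)) →
        DescEq p θ n' (fun i j => f (D.pair m (D.x i) (n' • D.x j))) D.sha

theorem MC.one (hD : D.Valid p) (hr1 : 1 ≤ D.r) (hP : D.Pairing2 p) {t : ℕ → ℕ}
    (ht : ∀ n, 1 ≤ n → D.Adm p (t n) ∧ (∀ l ∈ (t n).primeFactors, p ^ n ∣ l - 1) ∧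
      D.Independent p (t n)) (hK : D.MC p) (hsha : D.sha ≠ 0) : D.MCOne p := by
  obtain ⟨n, hn, hns⟩ : ∃ n, 1 ≤ n ∧ ¬ p ^ n ∣ D.sha := by
    refine ⟨D.sha + 1, by omega, fun h => ?_⟩
    have h1 := Nat.le_of_dvd (Nat.pos_of_ne_zero hsha) h
    have h2 : D.sha + 1 < p ^ (D.sha + 1) := Nat.lt_pow_self hp.out.one_lt
    omega
  obtain ⟨h1, h2, h3⟩ := ht n hn
  obtain ⟨n', hn', hES⟩ := hP.ext (t n) h1
  obtain ⟨d, f, hd, hf, hperf, -⟩ := exists_perfect hD hr1 hP hn h1 h2 h3 hn' hES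
  exact ⟨n, d, f, hn, hns, h1.of_dvd hd, hf, hperf, hK d (h1.of_dvd hd) n f hf⟩

/-- **The main theorem**: the weak main conjecture gives the leading term formula with one constant,
the main conjecture for one field gives this constant up to a unit -/
theorem mainAll (hD : D.Valid p) (hr1 : 1 ≤ D.r) (hr : D.r < p)
    (hI : ∀ m, D.Adm p m → D.Integral p m) (hP : D.Pairing2 p) {a : ℤ_[p]} (ha : D.UnitRoot p a)
    {w : EQ D.W → EQ D.W → ℤ_[p]ˣ} (hIW : D.IntegralW p a) (hPW : D.PairingW p w) (t : ℕ → ℕ)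
    (ht : ∀ n, 1 ≤ n → D.Adm p (t n) ∧ (∀ l ∈ (t n).primeFactors, p ^ n ∣ l - 1) ∧
      D.Independent p (t n)) (hK : D.WMC p) (hKW : ∀ n, 1 ≤ n → D.WMCW p a w n (t n)) :
    (∃ c : ℤ_[p],
      (∀ m, D.Adm p m → ∀ (G : Type) [CommGroup G] (f : Gp m →* G), IsField m f →
        D.Q1c p c m f) ∧
      (∀ n, 1 ≤ n → D.Q1W p a w c 1 (p ^ (n + 1)) (MonoidHom.id _)) ∧
      (D.MCOne p → ∃ u, IsUnit u ∧ c = u * D.Lalg p 1)) ∧
    (D.NondegW p w →
      ((∀ m, D.Adm p m → ∀ (G : Type) [CommGroup G] (f : Gp m →* G), IsField m f →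
        D.Q1 p m f) ↔
      ∀ n, 1 ≤ n → D.Q1W p a w (D.Lalg p 1) 1 (p ^ (n + 1)) (MonoidHom.id _))) := by
  obtain ⟨⟨c, hc, hc'⟩, h2⟩ := mainDesc hD hr1 hr hI hP ha hIW hPW t ht hK hKW
  refine ⟨⟨c, hc, hc', ?_⟩, h2⟩
  rintro ⟨n, m, f, hn, hs, hm, hf, hperf, hθ⟩
  have h4 := const_of_descEq hr hP hm hn hperf (hc m hm _ f hf) hs hθ
  obtain ⟨u, hu⟩ := (h4.trans (assoc_Lalg hD)).symm
  exact ⟨u, u.isUnit, by rw [← hu, mul_comm]⟩

end MTData

end MTate
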